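import Pool.Agent.Helper92K9.WI.Var
import Pool.Agent.H305R2.AE1

set_option autoImplicit false

/-!
# Random differences: almost sure law
-/

namespace Pool.Agent.Helper92K9.WI

open Finset Filter Topology MeasureTheory
open scoped Classical

variable {Ω : Type} [MeasurableSpace Ω] {P : Measure Ω} [IsProbabilityMeasure P]

/-- the random residues are uniform and pairwise independent -/
structure Uni (P : Measure Ω) (A : ℕ → Ω → ℕ) : Prop where
  meas : ∀ p : ℕ, p.Prime → Measurable (A p)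
  one : ∀ p : ℕ, p.Prime → ∀ r < p ^ 2, P.real {ω | A p ω % p ^ 2 = r} = 1 / (p : ℝ) ^ 2
  two : ∀ p q : ℕ, p.Prime → q.Prime → p ≠ q → ∀ r < p ^ 2, ∀ s < q ^ 2,
    P.real {ω | A p ω % p ^ 2 = r ∧ A q ω % q ^ 2 = s} = 1 / ((p : ℝ) ^ 2 * (q : ℝ) ^ 2)

lemma wil_mod (b : ℤ) {p : ℕ} (hp : p.Prime) (a : ℕ) :
    IsWilson b ((a % p ^ 2 : ℕ) : ℤ) p ↔ IsWilson b (a : ℤ) p := by
  have h := isWilson_periodic b p ((a % p ^ 2 : ℕ) : ℤ) ((a / p ^ 2 : ℕ) : ℤ)
  rw [← h]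
  have e : (((a % p ^ 2 : ℕ) : ℤ)) + (p : ℤ) ^ 2 * ((a / p ^ 2 : ℕ) : ℤ) = (a : ℤ) := by
    have := Nat.mod_add_div a (p ^ 2)
    exact_mod_cast this
  rw [e]

/-- the event -/
def Ev (b : ℤ) (A : ℕ → Ω → ℕ) (p : ℕ) : Set Ω := {ω | IsWilson b (A p ω : ℤ) p}

/-- the good residues -/
noncomputable def Rs (b : ℤ) (p : ℕ) : Finset ℕ := (range (p ^ 2)).filter (fun a : ℕ => IsWilson b (a : ℤ) p)

lemma Ev_eq {A : ℕ → Ω → ℕ} (b : ℤ) {p : ℕ} (hp : p.Prime) :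
    Ev b A p = ⋃ r ∈ Rs b p, {ω | A p ω % p ^ 2 = r} := by
  ext ω
  simp only [Ev, Rs, Set.mem_ofPred_eq, Set.mem_iUnion, mem_filter, mem_range, exists_prop]
  constructor
  · intro h
    exact ⟨A p ω % p ^ 2, ⟨Nat.mod_lt _ (pow_pos hp.pos 2), (wil_mod b hp _).2 h⟩, rfl⟩
  · rintro ⟨r, ⟨_, hr⟩, h⟩
    rw [← h] at hr
    exact (wil_mod b hp _).1 hr

lemma meas_res {A : ℕ → Ω → ℕ} (h : Uni P A) {p : ℕ} (hp : p.Prime) (r : ℕ) :
    MeasurableSet {ω | A p ω % p ^ 2 = r} := by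
  have : MeasurableSet ((A p) ⁻¹' {n | n % p ^ 2 = r}) := h.meas p hp (MeasurableSet.of_discrete)
  exact this

lemma meas_Ev {A : ℕ → Ω → ℕ} (h : Uni P A) (b : ℤ) {p : ℕ} (hp : p.Prime) :
    MeasurableSet (Ev b A p) := by
  rw [Ev_eq b hp]
  exact Finset.measurableSet_biUnion _ fun r _ => meas_res h hp r

lemma prob_one {A : ℕ → Ω → ℕ} (h : Uni P A) (b : ℤ) {p : ℕ} (hp : p.Prime) (hp2 : p ≠ 2) :
    P.real (Ev b A p) = gg p := by
  rw [Ev_eq b hp, measureReal_biUnion_finset]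
  · have h1 : ∀ r ∈ Rs b p, P.real {ω | A p ω % p ^ 2 = r} = 1 / (p : ℝ) ^ 2 := by
      intro r hr
      rw [Rs, mem_filter, mem_range] at hr
      exact h.one p hp r hr.1
    rw [sum_congr rfl h1, sum_const, nsmul_eq_mul, Rs, card_local b hp hp2, Nat.cast_sub hp.one_le]
    unfold gg
    push_cast
    ring
  · intro r _ s _ hrs
    rw [Function.onFun, Set.disjoint_left]
    intro ω h1 h2
    exact hrs (h1.symm.trans h2)
  · intro r _
    exact meas_res h hp r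

lemma prob_two {A : ℕ → Ω → ℕ} (h : Uni P A) (b : ℤ) {p q : ℕ} (hp : p.Prime) (hp2 : p ≠ 2)
    (hq : q.Prime) (hq2 : q ≠ 2) (hpq : p ≠ q) :
    P.real (Ev b A p ∩ Ev b A q) = gg p * gg q := by
  have e : Ev b A p ∩ Ev b A q = ⋃ z ∈ Rs b p ×ˢ Rs b q,
      {ω | A p ω % p ^ 2 = z.1 ∧ A q ω % q ^ 2 = z.2} := by
    rw [Ev_eq b hp, Ev_eq b hq]
    ext ω
    simp only [Set.mem_inter_iff, Set.mem_iUnion, Set.mem_ofPred_eq, mem_product, exists_prop]
    constructor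
    · rintro ⟨⟨r, hr, h1⟩, s, hs, h2⟩
      exact ⟨(r, s), ⟨hr, hs⟩, h1, h2⟩
    · rintro ⟨⟨r, s⟩, ⟨hr, hs⟩, h1, h2⟩
      exact ⟨⟨r, hr, h1⟩, s, hs, h2⟩
  rw [e, measureReal_biUnion_finset]
  · have h1 : ∀ z ∈ Rs b p ×ˢ Rs b q, P.real {ω | A p ω % p ^ 2 = z.1 ∧ A q ω % q ^ 2 = z.2} =
        1 / ((p : ℝ) ^ 2 * (q : ℝ) ^ 2) := by
      intro z hz
      rw [mem_product, Rs, Rs, mem_filter, mem_filter, mem_range, mem_range] at hz
      exact h.two p q hp hq hpq z.1 hz.1.1 z.2 hz.2.1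
    rw [sum_congr rfl h1, sum_const, nsmul_eq_mul, card_product, Rs, Rs, card_local b hp hp2,
      card_local b hq hq2, Nat.cast_mul, Nat.cast_sub hp.one_le, Nat.cast_sub hq.one_le]
    unfold gg
    have : (p : ℝ) ≠ 0 := by exact_mod_cast hp.ne_zero
    have : (q : ℝ) ≠ 0 := by exact_mod_cast hq.ne_zero
    push_cast
    field_simp
  · intro z _ w _ hzw
    rw [Function.onFun, Set.disjoint_left]
    intro ω h1 h2
    exact hzw (Prod.ext (h1.1.symm.trans h2.1) (h1.2.symm.trans h2.2))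
  · intro z _
    exact (meas_res h hp z.1).inter (meas_res h hq z.2)

/-- the indicator -/
noncomputable def xi (b : ℤ) (A : ℕ → Ω → ℕ) (p : ℕ) (ω : Ω) : ℝ := (Ev b A p).indicator (fun _ => (1 : ℝ)) ω

lemma int_xi {A : ℕ → Ω → ℕ} (h : Uni P A) (b : ℤ) {p : ℕ} (hp : p.Prime) (hp2 : p ≠ 2) :
    ∫ ω, xi b A p ω ∂P = gg p := by
  unfold xi
  rw [integral_indicator (meas_Ev h b hp)]
  simp [prob_one h b hp hp2]

lemma int_xi_mul {A : ℕ → Ω → ℕ} (h : Uni P A) (b : ℤ) {p q : ℕ} (hp : p.Prime) (hp2 : p ≠ 2)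
    (hq : q.Prime) (hq2 : q ≠ 2) (hpq : p ≠ q) :
    ∫ ω, xi b A p ω * xi b A q ω ∂P = gg p * gg q := by
  have e : ∀ ω, xi b A p ω * xi b A q ω = (Ev b A p ∩ Ev b A q).indicator (fun _ => (1 : ℝ)) ω := by
    intro ω
    unfold xi
    by_cases h1 : ω ∈ Ev b A p <;> by_cases h2 : ω ∈ Ev b A q <;> simp [h1, h2]
  simp only [e]
  rw [integral_indicator ((meas_Ev h b hp).inter (meas_Ev h b hq))]
  simp [prob_two h b hp hp2 hq hq2 hpq]

lemma integrable_xi {A : ℕ → Ω → ℕ} (h : Uni P A) (b : ℤ) {p : ℕ} (hp : p.Prime) :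
    Integrable (xi b A p) P := (integrable_const (1 : ℝ)).indicator (meas_Ev h b hp)

lemma integrable_xi_mul {A : ℕ → Ω → ℕ} (h : Uni P A) (b : ℤ) {p q : ℕ} (hp : p.Prime) (hq : q.Prime) :
    Integrable (fun ω => xi b A p ω * xi b A q ω) P := by
  have e : (fun ω => xi b A p ω * xi b A q ω) = (Ev b A p ∩ Ev b A q).indicator (fun _ => (1 : ℝ)) := by
    funext ω
    unfold xi
    by_cases h1 : ω ∈ Ev b A p <;> by_cases h2 : ω ∈ Ev b A q <;> simp [h1, h2]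
  rw [e]
  exact (integrable_const (1 : ℝ)).indicator ((meas_Ev h b hp).inter (meas_Ev h b hq))

/-- the variance -/
theorem variance {A : ℕ → Ω → ℕ} (h : Uni P A) (b : ℤ) (y : ℕ) :
    ∫ ω, (∑ p ∈ Od y, xi b A p ω - lam y) ^ 2 ∂P ≤ lam y := by
  have hint : ∀ p ∈ Od y, ∀ q ∈ Od y, Integrable (fun ω => xi b A p ω * xi b A q ω) P := fun p hp q hq =>
    integrable_xi_mul h b (mem_Od.1 hp).2.1 (mem_Od.1 hq).2.1
  have e1 : ∀ ω, (∑ p ∈ Od y, xi b A p ω - lam y) ^ 2 =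
      ∑ p ∈ Od y, ∑ q ∈ Od y, xi b A p ω * xi b A q ω - 2 * lam y * ∑ p ∈ Od y, xi b A p ω + lam y ^ 2 := by
    intro ω
    rw [sub_sq, pow_two (∑ p ∈ Od y, xi b A p ω), sum_mul_sum]
    ring
  simp only [e1]
  have i1 : Integrable (fun ω => ∑ p ∈ Od y, ∑ q ∈ Od y, xi b A p ω * xi b A q ω) P :=
    integrable_finsetSum _ fun p hp => integrable_finsetSum _ fun q hq => hint p hp q hq
  have i2 : Integrable (fun ω => 2 * lam y * ∑ p ∈ Od y, xi b A p ω) P :=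
    (integrable_finsetSum _ fun p hp => integrable_xi h b (mem_Od.1 hp).2.1).const_mul _
  have i3 : Integrable (fun ω => ∑ p ∈ Od y, ∑ q ∈ Od y, xi b A p ω * xi b A q ω -
      2 * lam y * ∑ p ∈ Od y, xi b A p ω) P := i1.sub i2
  rw [integral_add i3 (integrable_const _), integral_sub i1 i2, integral_const_mul,
    integral_finsetSum _ fun p hp => integrable_finsetSum _ fun q hq => hint p hp q hq,
    integral_finsetSum _ fun p hp => integrable_xi h b (mem_Od.1 hp).2.1]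
  have e2 : ∑ p ∈ Od y, ∫ ω, xi b A p ω ∂P = lam y := by
    unfold lam
    apply sum_congr rfl
    intro p hp
    exact int_xi h b (mem_Od.1 hp).2.1 (mem_Od.1 hp).2.2
  have e3 : ∑ p ∈ Od y, ∫ ω, ∑ q ∈ Od y, xi b A p ω * xi b A q ω ∂P ≤ lam y ^ 2 + lam y := by
    have e4 : ∀ p ∈ Od y, ∫ ω, ∑ q ∈ Od y, xi b A p ω * xi b A q ω ∂P ≤ gg p * lam y + gg p := by
      intro p hp
      rw [integral_finsetSum _ fun q hq => hint p hp q hq]
      have e5 : ∀ q ∈ Od y, ∫ ω, xi b A p ω * xi b A q ω ∂P ≤ gg p * gg q + if p = q then gg p else 0 := by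
        intro q hq
        by_cases hpq : p = q
        · subst hpq
          rw [if_pos rfl]
          have e6 : ∀ ω, xi b A p ω * xi b A p ω = xi b A p ω := by
            intro ω
            unfold xi
            by_cases h1 : ω ∈ Ev b A p <;> simp [h1]
          simp only [e6]
          rw [int_xi h b (mem_Od.1 hp).2.1 (mem_Od.1 hp).2.2]
          have := gg_nonneg (mem_Od.1 hp).1.1
          nlinarith
        · rw [if_neg hpq, add_zero, int_xi_mul h b (mem_Od.1 hp).2.1 (mem_Od.1 hp).2.2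
            (mem_Od.1 hq).2.1 (mem_Od.1 hq).2.2 hpq]
      refine (sum_le_sum e5).trans (le_of_eq ?_)
      rw [sum_add_distrib, sum_ite_eq, if_pos hp, ← mul_sum]
      rfl
    refine (sum_le_sum e4).trans (le_of_eq ?_)
    rw [sum_add_distrib, ← sum_mul]
    change lam y * lam y + lam y = _
    ring
  rw [e2]
  simp only [integral_const, probReal_univ, one_smul, smul_eq_mul]
  nlinarith

end Pool.Agent.Helper92K9.WI
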