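import Pool.Agent.Helper92K9.WI.As

set_option autoImplicit false

/-!
# Random differences: the almost sure law
-/

namespace Pool.Agent.Helper92K9.WI

open Finset Filter Topology MeasureTheory
open scoped Classical

lemma loglog_tendsto : Tendsto (fun y : ℕ => Real.log (Real.log y)) atTop atTop :=
  Real.tendsto_log_atTop.comp (Real.tendsto_log_atTop.comp tendsto_natCast_atTop_atTop)

lemma lam_mono : Monotone lam := by
  intro y z h
  unfold lam
  apply sum_le_sum_of_subset_of_nonneg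
  · intro p hp
    rw [mem_Od] at hp ⊢
    exact ⟨⟨hp.1.1, hp.1.2.trans h⟩, hp.2⟩
  · intro p hp _
    exact gg_nonneg (mem_Od.1 hp).1.1

lemma lam_tendsto : Tendsto lam atTop atTop := by
  obtain ⟨C, hC0, hC⟩ := lam_est
  refine tendsto_atTop_mono' _ ?_ (tendsto_atTop_add_const_right _ (-C) loglog_tendsto)
  filter_upwards [eventually_ge_atTop 3] with y hy
  have := (abs_le.1 (hC y hy)).1
  linarith

lemma lam_succ (y : ℕ) : lam (y + 1) ≤ lam y + 1 := by
  have h1 : Od (y + 1) ⊆ insert (y + 1) (Od y) := by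
    intro p hp
    rw [mem_insert, mem_Od]
    rw [mem_Od] at hp
    by_cases h : p = y + 1
    · exact Or.inl h
    · exact Or.inr ⟨⟨hp.1.1, by omega⟩, hp.2⟩
  have h2 : y + 1 ∉ Od y := by
    intro h
    have := (mem_Od.1 h).1.2
    omega
  have h3 : lam (y + 1) ≤ ∑ p ∈ insert (y + 1) (Od y), gg p := by
    unfold lam
    apply sum_le_sum_of_subset_of_nonneg h1
    intro p hp _
    rw [mem_insert] at hp
    rcases hp with h | h
    · subst h; exact gg_nonneg (by omega)
    · exact gg_nonneg (mem_Od.1 h).1.1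
  rw [sum_insert h2] at h3
  have h4 : gg (y + 1) ≤ 1 := by
    unfold gg
    have h5 : (1 : ℝ) ≤ ((y + 1 : ℕ) : ℝ) := by exact_mod_cast Nat.succ_le_succ (Nat.zero_le y)
    rw [div_le_one (by positivity)]
    nlinarith
  unfold lam at h3 ⊢
  linarith

lemma exists_lam (k : ℕ) : ∃ y : ℕ, (k : ℝ) ^ 2 ≤ lam y :=
  (lam_tendsto.eventually_ge_atTop ((k : ℝ) ^ 2)).exists

/-- the sampling points -/
noncomputable def yy (k : ℕ) : ℕ := Nat.find (exists_lam k)

lemma yy_spec (k : ℕ) : (k : ℝ) ^ 2 ≤ lam (yy k) := Nat.find_spec (exists_lam k)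

lemma yy_le {k y : ℕ} (h : (k : ℝ) ^ 2 ≤ lam y) : yy k ≤ y := Nat.find_min' _ h

lemma lam_zero : lam 0 = 0 := by
  unfold lam Od
  simp

lemma yy_up (k : ℕ) : lam (yy k) ≤ (k : ℝ) ^ 2 + 1 := by
  rcases Nat.eq_zero_or_pos (yy k) with h | h
  · rw [h, lam_zero]; positivity
  · obtain ⟨n, hn⟩ : ∃ n, yy k = n + 1 := ⟨yy k - 1, by omega⟩
    have h1 : ¬ (k : ℝ) ^ 2 ≤ lam n := Nat.find_min (exists_lam k) (by
      change n < yy k
      omega)
    push Not at h1
    rw [hn]
    linarith [lam_succ n]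

variable {Ω : Type} [MeasurableSpace Ω] {P : Measure Ω} [IsProbabilityMeasure P]

/-- the partial sums -/
noncomputable def SS (b : ℤ) (A : ℕ → Ω → ℕ) (y : ℕ) (ω : Ω) : ℝ := ∑ p ∈ Od y, xi b A p ω

lemma xi_nonneg (b : ℤ) (A : ℕ → Ω → ℕ) (p : ℕ) (ω : Ω) : 0 ≤ xi b A p ω :=
  Set.indicator_nonneg (fun _ _ => zero_le_one) _

lemma xi_le (b : ℤ) (A : ℕ → Ω → ℕ) (p : ℕ) (ω : Ω) : xi b A p ω ≤ 1 := by
  unfold xi
  by_cases h : ω ∈ Ev b A p <;> simp [h]

lemma SS_mono (b : ℤ) (A : ℕ → Ω → ℕ) (ω : Ω) {y z : ℕ} (h : y ≤ z) : SS b A y ω ≤ SS b A z ω := by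
  unfold SS
  apply sum_le_sum_of_subset_of_nonneg
  · intro p hp
    rw [mem_Od] at hp ⊢
    exact ⟨⟨hp.1.1, hp.1.2.trans h⟩, hp.2⟩
  · intro p _ _
    exact xi_nonneg b A p ω

lemma ae_sample {A : ℕ → Ω → ℕ} (h : Uni P A) (b : ℤ) :
    ∀ᵐ ω ∂P, Tendsto (fun k : ℕ => SS b A (yy k) ω / (k : ℝ) ^ 2) atTop (𝓝 1) := by
  have hmeas : ∀ y, Measurable (SS b A y) := by
    intro y
    unfold SS
    apply Finset.measurable_fun_sum
    intro p hp
    exact measurable_const.indicator (meas_Ev h b (mem_Od.1 hp).2.1)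
  have hbd : ∀ y ω, |SS b A y ω - lam y| ≤ (Od y).card + lam y := by
    intro y ω
    have h1 : 0 ≤ SS b A y ω := sum_nonneg fun p _ => xi_nonneg b A p ω
    have h2 : SS b A y ω ≤ (Od y).card := by
      unfold SS
      refine (sum_le_sum fun p _ => xi_le b A p ω).trans ?_
      simp
    have h3 := lam_nonneg y
    rw [abs_le]
    constructor <;> linarith
  have hae := Pool.Agent.H305R2.ae_tendsto_zero (μ := P)
    (fun (k : ℕ) ω => (SS b A (yy k) ω - lam (yy k)) / (k : ℝ) ^ 2)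
    (fun k => ((hmeas (yy k)).sub_const _).div_const _)
    (fun k => by
      refine Integrable.of_bound ((((hmeas (yy k)).sub_const _).div_const _).pow_const 2).aestronglyMeasurable
        ((((Od (yy k)).card + lam (yy k)) / (k : ℝ) ^ 2) ^ 2) (Eventually.of_forall fun ω => ?_)
      rw [Real.norm_eq_abs, abs_pow, abs_div, abs_of_nonneg (by positivity : (0 : ℝ) ≤ (k : ℝ) ^ 2)]
      apply pow_le_pow_left₀ (by positivity)
      exact div_le_div_of_nonneg_right (hbd _ ω) (by positivity))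
    (by
      have hs : Summable (fun k : ℕ => 2 * (1 / (k : ℝ) ^ 2)) :=
        (Real.summable_one_div_nat_pow.2 (by norm_num)).mul_left 2
      refine Summable.of_nonneg_of_le (fun k => integral_nonneg fun ω => sq_nonneg _) (fun k => ?_) hs
      rcases Nat.eq_zero_or_pos k with hk | hk
      · subst hk; simp
      · have hk' : (1 : ℝ) ≤ k := by exact_mod_cast hk
        have hk2 : (1 : ℝ) ≤ (k : ℝ) ^ 2 := one_le_pow₀ hk'
        simp only [div_pow]
        rw [integral_div]
        have h1 := variance h b (yy k)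
        have h2 : ∫ ω, (SS b A (yy k) ω - lam (yy k)) ^ 2 ∂P ≤ 2 * (k : ℝ) ^ 2 := by
          refine le_trans h1 ?_
          linarith [yy_up k]
        rw [div_le_iff₀ (by positivity)]
        calc ∫ ω, (SS b A (yy k) ω - lam (yy k)) ^ 2 ∂P ≤ 2 * (k : ℝ) ^ 2 := h2
          _ = 2 * (1 / (k : ℝ) ^ 2) * ((k : ℝ) ^ 2) ^ 2 := by field_simp)
  filter_upwards [hae] with ω hω
  have h1 : Tendsto (fun k : ℕ => lam (yy k) / (k : ℝ) ^ 2) atTop (𝓝 1) := by
    have hlim : Tendsto (fun k : ℕ => 1 + 1 / (k : ℝ) ^ 2) atTop (𝓝 1) := by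
      have h2 : Tendsto (fun k : ℕ => 1 / (k : ℝ) ^ 2) atTop (𝓝 0) :=
        (Real.summable_one_div_nat_pow.2 (by norm_num : 1 < 2)).tendsto_atTop_zero
      simpa using (tendsto_const_nhds (x := (1 : ℝ))).add h2
    refine tendsto_of_tendsto_of_tendsto_of_le_of_le' tendsto_const_nhds hlim ?_ ?_
    · filter_upwards [eventually_ge_atTop 1] with k hk
      have hk' : (0 : ℝ) < (k : ℝ) ^ 2 := by positivity
      rw [le_div_iff₀ hk', one_mul]
      exact yy_spec k
    · filter_upwards [eventually_ge_atTop 1] with k hk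
      have hk' : (0 : ℝ) < (k : ℝ) ^ 2 := by positivity
      rw [div_le_iff₀ hk', add_mul, one_mul, one_div, inv_mul_cancel₀ hk'.ne']
      exact yy_up k
  have h2 := hω.add h1
  rw [zero_add] at h2
  refine h2.congr fun k => ?_
  ring

lemma ae_ratio {A : ℕ → Ω → ℕ} (h : Uni P A) (b : ℤ) :
    ∀ᵐ ω ∂P, Tendsto (fun y : ℕ => SS b A y ω / lam y) atTop (𝓝 1) := by
  filter_upwards [ae_sample h b] with ω hω
  -- the index
  set κ : ℕ → ℕ := fun y => ⌊√(lam y)⌋₊ with hκ
  have hκt : Tendsto κ atTop atTop :=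
    tendsto_nat_floor_atTop.comp (Real.tendsto_sqrt_atTop.comp lam_tendsto)
  have hsq : Tendsto (fun k : ℕ => ((k : ℝ) / (k + 1)) ^ 2) atTop (𝓝 1) := by
    have := (tendsto_natCast_div_add_atTop (1 : ℝ)).pow 2
    simpa using this
  have g1 : Tendsto (fun k : ℕ => SS b A (yy k) ω / ((k : ℝ) + 1) ^ 2) atTop (𝓝 1) := by
    have := hω.mul hsq
    rw [one_mul] at this
    refine this.congr' ?_
    filter_upwards [eventually_ge_atTop 1] with k hk
    have : (0 : ℝ) < k := by exact_mod_cast hk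
    field_simp
  have g2 : Tendsto (fun k : ℕ => SS b A (yy (k + 1)) ω / (k : ℝ) ^ 2) atTop (𝓝 1) := by
    have h1 := (tendsto_add_atTop_iff_nat 1).2 hω
    have h2 : Tendsto (fun k : ℕ => (((k : ℝ) / (k + 1)) ^ 2)⁻¹) atTop (𝓝 1) := by
      simpa using hsq.inv₀ one_ne_zero
    have := h1.mul h2
    rw [one_mul] at this
    refine this.congr' ?_
    filter_upwards [eventually_ge_atTop 1] with k hk
    have : (0 : ℝ) < k := by exact_mod_cast hk
    push_cast
    field_simp
  refine tendsto_of_tendsto_of_tendsto_of_le_of_le' (g1.comp hκt) (g2.comp hκt) ?_ ?_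
  · filter_upwards [lam_tendsto.eventually_ge_atTop 1] with y hy
    have h0 : 0 ≤ √(lam y) := Real.sqrt_nonneg _
    have h1 : (κ y : ℝ) ≤ √(lam y) := Nat.floor_le h0
    have h2 : √(lam y) < κ y + 1 := Nat.lt_floor_add_one _
    have hs : √(lam y) ^ 2 = lam y := Real.sq_sqrt (by linarith)
    have h3 : (κ y : ℝ) ^ 2 ≤ lam y := by
      rw [← hs]
      exact pow_le_pow_left₀ (Nat.cast_nonneg _) h1 2
    have h4 : lam y ≤ ((κ y : ℝ) + 1) ^ 2 := by
      rw [← hs]
      exact pow_le_pow_left₀ h0 h2.le 2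
    have h5 : SS b A (yy (κ y)) ω ≤ SS b A y ω := SS_mono b A ω (yy_le h3)
    have h6 : 0 ≤ SS b A (yy (κ y)) ω := sum_nonneg fun p _ => xi_nonneg b A p ω
    simp only [Function.comp_apply]
    calc SS b A (yy (κ y)) ω / ((κ y : ℝ) + 1) ^ 2 ≤ SS b A (yy (κ y)) ω / lam y :=
          div_le_div_of_nonneg_left h6 (by linarith) h4
      _ ≤ SS b A y ω / lam y := div_le_div_of_nonneg_right h5 (by linarith)
  · filter_upwards [lam_tendsto.eventually_ge_atTop 1] with y hy
    have h0 : 0 ≤ √(lam y) := Real.sqrt_nonneg _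
    have h1 : (κ y : ℝ) ≤ √(lam y) := Nat.floor_le h0
    have h2 : √(lam y) < κ y + 1 := Nat.lt_floor_add_one _
    have hs : √(lam y) ^ 2 = lam y := Real.sq_sqrt (by linarith)
    have h3 : (κ y : ℝ) ^ 2 ≤ lam y := by
      rw [← hs]
      exact pow_le_pow_left₀ (Nat.cast_nonneg _) h1 2
    have h4 : lam y < ((κ y : ℝ) + 1) ^ 2 := by
      rw [← hs]
      exact pow_lt_pow_left₀ h2 h0 (by norm_num)
    have hκ1 : 1 ≤ κ y := by
      apply Nat.le_floor
      rw [Nat.cast_one, Real.one_le_sqrt]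
      exact hy
    have hκ0 : (0 : ℝ) < (κ y : ℝ) ^ 2 := by
      have : (0 : ℝ) < κ y := by exact_mod_cast hκ1
      positivity
    have h5 : y ≤ yy (κ y + 1) := by
      by_contra hc
      push Not at hc
      have h6 := lam_mono hc.le
      have h7 := yy_spec (κ y + 1)
      push_cast at h7
      linarith
    have h6 : SS b A y ω ≤ SS b A (yy (κ y + 1)) ω := SS_mono b A ω h5
    have h7 : 0 ≤ SS b A (yy (κ y + 1)) ω := sum_nonneg fun p _ => xi_nonneg b A p ω
    simp only [Function.comp_apply]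
    calc SS b A y ω / lam y ≤ SS b A (yy (κ y + 1)) ω / lam y :=
          div_le_div_of_nonneg_right h6 (by linarith)
      _ ≤ SS b A (yy (κ y + 1)) ω / (κ y : ℝ) ^ 2 := div_le_div_of_nonneg_left h7 hκ0 h3

/-- the number of Wilson primes up to `y` for the random differences -/
noncomputable def NR (b : ℤ) (A : ℕ → ℕ) (y : ℕ) : ℕ :=
  ((Icc 1 y).filter (fun p => IsWilson b (A p : ℤ) p)).card

lemma NR_close (b : ℤ) (A : ℕ → Ω → ℕ) (y : ℕ) (ω : Ω) :
    |(NR b (fun p => A p ω) y : ℝ) - SS b A y ω| ≤ 1 := by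
  have h1 : SS b A y ω = (((Od y).filter (fun p => IsWilson b (A p ω : ℤ) p)).card : ℝ) := by
    unfold SS xi
    rw [← sum_boole]
    apply sum_congr rfl
    intro p _
    by_cases h : IsWilson b (A p ω : ℤ) p
    · have : ω ∈ Ev b A p := h
      simp [this, h]
    · have : ω ∉ Ev b A p := h
      simp [this, h]
  have h2 : (Od y).filter (fun p => IsWilson b (A p ω : ℤ) p) =
      ((Icc 1 y).filter (fun p => IsWilson b (A p ω : ℤ) p)).erase 2 := by
    ext p
    rw [mem_erase, mem_filter, mem_filter, mem_Od, mem_Icc]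
    constructor
    · rintro ⟨⟨h, h3, h4⟩, h5⟩
      exact ⟨h4, h, h5⟩
    · rintro ⟨h4, h, h5⟩
      exact ⟨⟨h, h5.1, h4⟩, h5⟩
  rw [h1, h2]
  have h3 := card_erase_le (s := (Icc 1 y).filter (fun p => IsWilson b (A p ω : ℤ) p)) (a := 2)
  have h4 := pred_card_le_card_erase (s := (Icc 1 y).filter (fun p => IsWilson b (A p ω : ℤ) p)) (a := 2)
  unfold NR
  have h5 : ((Icc 1 y).filter (fun p => IsWilson b (A p ω : ℤ) p)).card ≤
      (((Icc 1 y).filter (fun p => IsWilson b (A p ω : ℤ) p)).erase 2).card + 1 := by omega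
  have h3' : ((((Icc 1 y).filter (fun p => IsWilson b (A p ω : ℤ) p)).erase 2).card : ℝ) ≤
      (((Icc 1 y).filter (fun p => IsWilson b (A p ω : ℤ) p)).card : ℝ) := by exact_mod_cast h3
  have h5' : (((Icc 1 y).filter (fun p => IsWilson b (A p ω : ℤ) p)).card : ℝ) ≤
      ((((Icc 1 y).filter (fun p => IsWilson b (A p ω : ℤ) p)).erase 2).card : ℝ) + 1 := by
    exact_mod_cast h5
  rw [abs_le]
  constructor <;> linarith

/-- **the almost sure law** -/
theorem as_law {A : ℕ → Ω → ℕ} (h : Uni P A) :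
    ∀ᵐ ω ∂P, ∀ b : ℤ, {p : ℕ | IsWilson b (A p ω : ℤ) p}.Infinite ∧
      Tendsto (fun y : ℕ => (NR b (fun p => A p ω) y : ℝ) / Real.log (Real.log y)) atTop (𝓝 1) := by
  rw [ae_all_iff]
  intro b
  filter_upwards [ae_ratio h b] with ω hω
  obtain ⟨C, hC0, hC⟩ := lam_est
  have hinv : Tendsto (fun y : ℕ => (Real.log (Real.log y))⁻¹) atTop (𝓝 0) :=
    loglog_tendsto.inv_tendsto_atTop
  have hlam : Tendsto (fun y : ℕ => lam y / Real.log (Real.log y)) atTop (𝓝 1) := by
    have h1 : Tendsto (fun y : ℕ => (lam y - Real.log (Real.log y)) * (Real.log (Real.log y))⁻¹) atTop (𝓝 0) := by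
      apply bdd_le_mul_tendsto_zero' C _ hinv
      filter_upwards [eventually_ge_atTop 3] with y hy
      exact hC y hy
    have h2 := h1.const_add 1
    rw [add_zero] at h2
    refine h2.congr' ?_
    filter_upwards [loglog_tendsto.eventually_ge_atTop 1] with y hy
    field_simp
    ring
  have h1 : Tendsto (fun y : ℕ => SS b A y ω / Real.log (Real.log y)) atTop (𝓝 1) := by
    have := hω.mul hlam
    rw [one_mul] at this
    refine this.congr' ?_
    filter_upwards [lam_tendsto.eventually_ge_atTop 1] with y hy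
    field_simp
  have h2 : Tendsto (fun y : ℕ => ((NR b (fun p => A p ω) y : ℝ) - SS b A y ω) * (Real.log (Real.log y))⁻¹)
      atTop (𝓝 0) := by
    apply bdd_le_mul_tendsto_zero' 1 _ hinv
    exact Eventually.of_forall fun y => NR_close b A y ω
  have h3 : Tendsto (fun y : ℕ => (NR b (fun p => A p ω) y : ℝ) / Real.log (Real.log y)) atTop (𝓝 1) := by
    have := h2.add h1
    rw [zero_add] at this
    refine this.congr fun y => ?_
    ring
  refine ⟨?_, h3⟩
  intro hfin
  have h4 : Tendsto (fun y : ℕ => (NR b (fun p => A p ω) y : ℝ) * (Real.log (Real.log y))⁻¹) atTop (𝓝 0) := by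
    apply bdd_le_mul_tendsto_zero' (hfin.toFinset.card : ℝ) _ hinv
    refine Eventually.of_forall fun y => ?_
    rw [abs_of_nonneg (Nat.cast_nonneg _)]
    have : NR b (fun p => A p ω) y ≤ hfin.toFinset.card := by
      unfold NR
      apply card_le_card
      intro p hp
      rw [Set.Finite.mem_toFinset]
      exact (mem_filter.1 hp).2
    exact_mod_cast this
  have h5 : Tendsto (fun y : ℕ => (NR b (fun p => A p ω) y : ℝ) / Real.log (Real.log y)) atTop (𝓝 0) := by
    simpa only [div_eq_mul_inv] using h4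
  exact zero_ne_one (tendsto_nhds_unique h5 h3)

end Pool.Agent.Helper92K9.WI
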