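import Pool.Agent.Helper92K9.WI.Ordr

set_option autoImplicit false

/-!
# The average number of Wilson primes over the orders
-/

namespace Pool.Agent.Helper92K9.WI

open Finset
open scoped Classical Nat

lemma QQ_lt {d m : ℕ} (hd : 1 ≤ d) (hm : 1 ≤ m) : QQ d m < ((m + d : ℕ) : ℤ) ^ d := by
  have h1 : ∀ k ∈ range d, ∏ j ∈ (range d).erase k, ((m : ℤ) + j) ≤ ((m + d - 1 : ℕ) : ℤ) ^ (d - 1) := by
    intro k hk
    have hc : ((range d).erase k).card = d - 1 := by rw [card_erase_of_mem hk, card_range]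
    rw [← hc, ← prod_const]
    apply prod_le_prod
    · intro j _; positivity
    · intro j hj
      have := mem_range.1 (mem_of_mem_erase hj)
      omega
  have h2 : QQ d m ≤ d * ((m + d - 1 : ℕ) : ℤ) ^ (d - 1) := by
    unfold QQ
    refine (sum_le_sum h1).trans (le_of_eq ?_)
    rw [sum_const, card_range, nsmul_eq_mul]
  have h3 : (d : ℤ) * ((m + d - 1 : ℕ) : ℤ) ^ (d - 1) ≤ ((m + d - 1 : ℕ) : ℤ) ^ d := by
    have e : ((m + d - 1 : ℕ) : ℤ) ^ d = ((m + d - 1 : ℕ) : ℤ) * ((m + d - 1 : ℕ) : ℤ) ^ (d - 1) := by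
      rw [← pow_succ']
      congr 1
      omega
    rw [e]
    apply mul_le_mul_of_nonneg_right _ (by positivity)
    omega
  have h4 : ((m + d - 1 : ℕ) : ℤ) ^ d < ((m + d : ℕ) : ℤ) ^ d := by
    apply pow_lt_pow_left₀ _ (by positivity) (by omega)
    omega
  exact h2.trans_lt (h3.trans_lt h4)

/-- two orders at distance `d` have at most `d - 1` common Wilson primes -/
theorem common_card {d m : ℕ} (hd : 1 ≤ d) (T : Finset ℕ) (hT : ∀ p ∈ T, Ord m p ∧ Ord (m + d) p) :
    T.card ≤ d - 1 := by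
  by_cases hm : 1 ≤ m
  · have hQ0 := QQ_pos hd hm
    have hQ1 := QQ_lt hd hm
    obtain ⟨q, hq⟩ := Int.eq_ofNat_of_zero_le hQ0.le
    rw [hq] at hQ0 hQ1
    have hq0 : 0 < q := by exact_mod_cast hQ0
    have hq1 : q < (m + d) ^ d := by exact_mod_cast hQ1
    have h1 : ∏ p ∈ T, p ∣ q := by
      apply Finset.prod_primes_dvd
      · intro p hp
        exact (hT p hp).1.1.prime
      · intro p hp
        have := two_orders (hT p hp).1 (hT p hp).2
        rw [hq] at this
        exact_mod_cast this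
    have h2 : (m + d) ^ T.card ≤ ∏ p ∈ T, p := by
      rw [← prod_const]
      apply prod_le_prod
      · intro _ _; positivity
      · intro p hp
        exact (hT p hp).2.2.2.1
    have h3 : (m + d) ^ T.card < (m + d) ^ d := (h2.trans (Nat.le_of_dvd hq0 h1)).trans_lt hq1
    have h4 : T.card < d := (Nat.pow_lt_pow_iff_right (by omega)).1 h3
    omega
  · have : T = ∅ := by
      apply eq_empty_of_forall_notMem
      intro p hp
      exact hm (hT p hp).1.2.1
    rw [this]
    simp

/-- the gap argument for all primes up to `x` together -/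
lemma gap_avg (N x D : ℕ) : ∑ n ∈ Icc 1 N, piW n x ≤
    N * ∑ d ∈ Icc 1 D, (d - 1) + Nat.primeCounting x * (N / (D + 1) + 1) := by
  rw [swap]
  set A : ℕ → Finset ℕ := fun p => (Icc 1 N).filter (fun n => Ord n p) with hA
  have h1 : ∀ p ∈ (Icc 1 x).filter Nat.Prime, (A p).card ≤
      ((A p).filter (fun m => ∃ d ∈ Icc 1 D, m + d ∈ A p)).card + (N / (D + 1) + 1) := by
    intro p _
    rw [← card_filter_add_card_filter_not (s := A p) (fun m => ∃ d ∈ Icc 1 D, m + d ∈ A p)]
    apply Nat.add_le_add_left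
    have h2 : ((A p).filter (fun m => ¬ ∃ d ∈ Icc 1 D, m + d ∈ A p)).card ≤
        (range (N / (D + 1) + 1)).card := by
      refine card_le_card_of_injOn (fun m => m / (D + 1)) ?_ ?_
      · intro m hm
        rw [mem_coe, mem_filter, hA, mem_filter, mem_Icc] at hm
        rw [mem_coe, mem_range]
        have := Nat.div_le_div_right (c := D + 1) hm.1.1.2
        exact Nat.lt_succ_of_le this
      · have key : ∀ m n : ℕ, m < n → m ∈ (A p).filter (fun m => ¬ ∃ d ∈ Icc 1 D, m + d ∈ A p) →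
            n ∈ (A p).filter (fun m => ¬ ∃ d ∈ Icc 1 D, m + d ∈ A p) → m / (D + 1) ≠ n / (D + 1) := by
          intro m n hmn hm hn h
          rw [mem_filter] at hm hn
          apply hm.2
          refine ⟨n - m, ?_, ?_⟩
          · rw [mem_Icc]
            refine ⟨by omega, ?_⟩
            have h3 := Nat.div_add_mod m (D + 1)
            have h4 := Nat.div_add_mod n (D + 1)
            have h5 := Nat.mod_lt n (Nat.succ_pos D)
            have h6 := Nat.mod_lt m (Nat.succ_pos D)
            rw [h] at h3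
            rw [Nat.succ_eq_add_one] at h5 h6
            omega
          · have : m + (n - m) = n := by omega
            rw [this]
            exact hn.1
        intro m hm n hn h
        rw [mem_coe] at hm hn
        rcases lt_trichotomy m n with h' | h' | h'
        · exact absurd h (key m n h' hm hn)
        · exact h'
        · exact absurd h.symm (key n m h' hn hm)
    rwa [card_range] at h2
  refine (sum_le_sum h1).trans ?_
  rw [sum_add_distrib]
  apply add_le_add
  · have h2 : ∀ p ∈ (Icc 1 x).filter Nat.Prime,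
        ((A p).filter (fun m => ∃ d ∈ Icc 1 D, m + d ∈ A p)).card ≤
        ∑ d ∈ Icc 1 D, ∑ m ∈ Icc 1 N, if Ord m p ∧ Ord (m + d) p then 1 else 0 := by
      intro p _
      have h3 : (A p).filter (fun m => ∃ d ∈ Icc 1 D, m + d ∈ A p) ⊆
          (Icc 1 D).biUnion (fun d => (Icc 1 N).filter (fun m => Ord m p ∧ Ord (m + d) p)) := by
        intro m hm
        rw [mem_filter] at hm
        obtain ⟨hmA, d, hd, hmd⟩ := hm
        rw [hA, mem_filter] at hmA hmd
        rw [mem_biUnion]
        refine ⟨d, hd, ?_⟩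
        rw [mem_filter]
        exact ⟨hmA.1, hmA.2, hmd.2⟩
      refine (card_le_card h3).trans (card_biUnion_le.trans (le_of_eq ?_))
      apply sum_congr rfl
      intro d _
      rw [card_filter]
    refine (sum_le_sum h2).trans ?_
    rw [sum_comm, mul_sum]
    apply sum_le_sum
    intro d hd
    rw [sum_comm]
    have h4 : ∀ m ∈ Icc 1 N, (∑ p ∈ (Icc 1 x).filter Nat.Prime,
        if Ord m p ∧ Ord (m + d) p then 1 else 0) ≤ d - 1 := by
      intro m _
      rw [← card_filter]
      apply common_card (mem_Icc.1 hd).1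
      intro p hp
      exact (mem_filter.1 hp).2
    refine (sum_le_sum h4).trans (le_of_eq ?_)
    rw [sum_const, Nat.card_Icc, smul_eq_mul, Nat.add_sub_cancel]
  · rw [sum_const, smul_eq_mul]
    apply Nat.mul_le_mul_right
    rw [Nat.primeCounting, Nat.primeCounting', Nat.count_eq_card_filter_range]
    apply card_le_card
    intro p hp
    rw [mem_filter, mem_Icc] at hp
    rw [mem_filter, mem_range]
    exact ⟨by omega, hp.2⟩

/-- **the average over the orders** -/
theorem average' (N x : ℕ) : ((∑ n ∈ Icc 1 N, piW n x : ℕ) : ℝ) ≤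
    Nat.primeCounting x + 3 / 2 * N * (Nat.primeCounting x : ℝ) ^ ((2 : ℝ) / 3) := by
  set P : ℝ := (Nat.primeCounting x : ℝ) with hP
  have hP0 : 0 ≤ P := Nat.cast_nonneg _
  have hN0 : (0 : ℝ) ≤ N := Nat.cast_nonneg N
  set t : ℝ := P ^ ((1 : ℝ) / 3) with ht
  have ht0 : 0 ≤ t := Real.rpow_nonneg hP0 _
  have ht3 : t ^ 3 = P := by
    rw [ht, ← Real.rpow_natCast, ← Real.rpow_mul hP0]
    norm_num
  have ht2 : t ^ 2 = P ^ ((2 : ℝ) / 3) := by
    rw [ht, ← Real.rpow_natCast, ← Real.rpow_mul hP0]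
    norm_num
  set D := ⌊t⌋₊ with hD
  have hD1 : (D : ℝ) ≤ t := Nat.floor_le ht0
  have hD2 : t < D + 1 := Nat.lt_floor_add_one t
  have h1 := gap_avg N x D
  have h2 := sum_gap D
  have h3 : P * ((N / (D + 1) : ℕ) : ℝ) ≤ N * t ^ 2 := by
    have h4 : ((N / (D + 1) : ℕ) : ℝ) ≤ (N : ℝ) / ((D + 1 : ℕ) : ℝ) := Nat.cast_div_le
    have h5 : P * ((N / (D + 1) : ℕ) : ℝ) ≤ P * ((N : ℝ) / ((D + 1 : ℕ) : ℝ)) :=
      mul_le_mul_of_nonneg_left h4 hP0
    refine h5.trans ?_
    rw [← mul_div_assoc, div_le_iff₀ (by positivity), ← ht3]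
    push_cast
    have h6 : t ^ 2 * N * t ≤ t ^ 2 * N * (D + 1) := mul_le_mul_of_nonneg_left hD2.le (by positivity)
    nlinarith
  have h5 : ((∑ n ∈ Icc 1 N, piW n x : ℕ) : ℝ) ≤
      N * ((∑ d ∈ Icc 1 D, (d - 1) : ℕ) : ℝ) + P * (((N / (D + 1) : ℕ) : ℝ) + 1) := by
    rw [hP]
    exact_mod_cast h1
  rw [← ht2]
  have h6 : (D : ℝ) ^ 2 ≤ t ^ 2 := pow_le_pow_left₀ (Nat.cast_nonneg _) hD1 2
  have h7 : (N : ℝ) * ((∑ d ∈ Icc 1 D, (d - 1) : ℕ) : ℝ) ≤ N * (t ^ 2 / 2) :=
    mul_le_mul_of_nonneg_left (by linarith) hN0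
  nlinarith

end Pool.Agent.Helper92K9.WI
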