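import Mathlib

set_option autoImplicit false

/-!
# Counting periodic conditions
-/

namespace Pool.Agent.Helper92K9.WI

open Finset

lemma block (A : ℕ → Prop) [DecidablePred A] (M : ℕ) (per : ∀ a, A (a + M) ↔ A a) (q : ℕ) :
    ((Ico 1 (1 + q * M)).filter A).card = q * ((range M).filter A).card := by
  have hper : Function.Periodic A M := fun a => propext (per a)
  induction q with
  | zero => simp
  | succ q ih =>
    have h1 : Ico 1 (1 + (q + 1) * M) = Ico 1 (1 + q * M) ∪ Ico (1 + q * M) (1 + q * M + M) := by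
      rw [Ico_union_Ico_eq_Ico (by omega) (by omega)]
      congr 1
      ring
    rw [h1, filter_union, card_union_of_disjoint, ih,
      Nat.filter_Ico_card_eq_of_periodic _ _ A hper, Nat.count_eq_card_filter_range]
    · ring
    · apply disjoint_filter_filter
      exact Ico_disjoint_Ico_consecutive _ _ _

lemma count_bound (A : ℕ → Prop) [DecidablePred A] {M : ℕ} (hM : 0 < M)
    (per : ∀ a, A (a + M) ↔ A a) {r : ℕ} (hr : ((range M).filter A).card = r) (X : ℕ) :
    |(((Icc 1 X).filter A).card : ℝ) - (r : ℝ) * X / M| ≤ r := by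
  have hM' : (0 : ℝ) < M := by exact_mod_cast hM
  set q := X / M with hq
  have h1 : q * M ≤ X := Nat.div_mul_le_self X M
  have h2 : X < (q + 1) * M := by
    rw [mul_comm]
    exact Nat.lt_mul_div_succ X hM
  have hlo : q * r ≤ ((Icc 1 X).filter A).card := by
    rw [← hr, ← block A M per q]
    apply card_le_card
    apply filter_subset_filter
    intro a ha
    rw [mem_Ico] at ha
    rw [mem_Icc]
    omega
  have hup : ((Icc 1 X).filter A).card ≤ (q + 1) * r := by
    rw [← hr, ← block A M per (q + 1)]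
    apply card_le_card
    apply filter_subset_filter
    intro a ha
    rw [mem_Icc] at ha
    rw [mem_Ico]
    omega
  have hlo' : (q : ℝ) * r ≤ ((Icc 1 X).filter A).card := by exact_mod_cast hlo
  have hup' : (((Icc 1 X).filter A).card : ℝ) ≤ (q + 1) * r := by exact_mod_cast hup
  have h1' : (q : ℝ) * M ≤ X := by exact_mod_cast h1
  have h2' : (X : ℝ) ≤ (q + 1) * M := by exact_mod_cast h2.le
  have hr0 : (0 : ℝ) ≤ r := Nat.cast_nonneg r
  have h3 : (q : ℝ) * r ≤ r * X / M := by
    rw [le_div_iff₀ hM']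
    nlinarith
  have h4 : (r : ℝ) * X / M ≤ (q + 1) * r := by
    rw [div_le_iff₀ hM']
    nlinarith
  rw [abs_le]
  constructor <;> nlinarith

/-- Chinese remainder theorem for two periodic conditions -/
lemma card_crt (A B : ℕ → Prop) [DecidablePred A] [DecidablePred B] {m n : ℕ} (hm : 0 < m)
    (hn : 0 < n) (hmn : Nat.Coprime m n) (pA : ∀ a, A (a + m) ↔ A a) (pB : ∀ a, B (a + n) ↔ B a) :
    ((range (m * n)).filter (fun a => A a ∧ B a)).card =
      ((range m).filter A).card * ((range n).filter B).card := by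
  have hA : ∀ a, A (a % m) ↔ A a := by
    intro a
    have hper : Function.Periodic A m := fun a => propext (pA a)
    exact iff_of_eq (hper.map_mod_nat a)
  have hB : ∀ a, B (a % n) ↔ B a := by
    intro a
    have hper : Function.Periodic B n := fun a => propext (pB a)
    exact iff_of_eq (hper.map_mod_nat a)
  rw [← card_product]
  refine card_bij (fun a _ => (a % m, a % n)) ?_ ?_ ?_
  · intro a ha
    rw [mem_filter] at ha
    rw [mem_product, mem_filter, mem_filter, mem_range, mem_range]
    exact ⟨⟨Nat.mod_lt _ hm, (hA a).2 ha.2.1⟩, ⟨Nat.mod_lt _ hn, (hB a).2 ha.2.2⟩⟩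
  · intro a ha c hc h
    rw [mem_filter, mem_range] at ha hc
    have h1 : a ≡ c [MOD m] := congrArg Prod.fst h
    have h2 : a ≡ c [MOD n] := congrArg Prod.snd h
    have h3 := (Nat.modEq_and_modEq_iff_modEq_mul hmn).1 ⟨h1, h2⟩
    exact Nat.ModEq.eq_of_lt_of_lt h3 ha.1 hc.1
  · rintro ⟨u, v⟩ huv
    rw [mem_product, mem_filter, mem_filter, mem_range, mem_range] at huv
    obtain ⟨k, hk1, hk2⟩ := Nat.chineseRemainder hmn u v
    have e1 : (k % (m * n)) % m = u := by
      rw [Nat.mod_mul_right_mod, hk1, Nat.mod_eq_of_lt huv.1.1]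
    have e2 : (k % (m * n)) % n = v := by
      rw [Nat.mod_mul_left_mod, hk2, Nat.mod_eq_of_lt huv.2.1]
    refine ⟨k % (m * n), ?_, ?_⟩
    · rw [mem_filter, mem_range]
      refine ⟨Nat.mod_lt _ (Nat.mul_pos hm hn), ?_, ?_⟩
      · rw [← hA, e1]; exact huv.1.2
      · rw [← hB, e2]; exact huv.2.2
    · simp only [e1, e2]

end Pool.Agent.Helper92K9.WI
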