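import Pool.Agent.Helper92K9.WI.Loc
import Pool.Agent.Helper92K9.WI.Per

set_option autoImplicit false

/-!
# The number of differences modulo `p ^ 2`
-/

namespace Pool.Agent.Helper92K9.WI

open Finset
open scoped Classical

lemma isWilson_periodic (b : ℤ) (p : ℕ) (a : ℤ) (t : ℤ) :
    IsWilson b (a + p ^ 2 * t) p ↔ IsWilson b a p := by
  unfold IsWilson
  have h0 : a + (p : ℤ) ^ 2 * t = a + p * (p * t) := by ring
  have h1 : (p : ℤ) ∣ a + (p : ℤ) ^ 2 * t ↔ (p : ℤ) ∣ a := by
    rw [h0, Int.dvd_add_left (Dvd.intro _ rfl)]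
  have h2 : (p : ℤ) ^ 2 ∣ wprod b (a + (p : ℤ) ^ 2 * t) p + 1 ↔ (p : ℤ) ^ 2 ∣ wprod b a p + 1 := by
    have h3 := prod_expand (FF b a p) (fun k : ℕ => b + a * (k : ℤ)) (fun k : ℕ => (k : ℤ)) p (p * t)
    have h4 : wprod b (a + (p : ℤ) ^ 2 * t) p =
        ∏ k ∈ FF b a p, (b + a * (k : ℤ) + p * (p * t) * k) := by
      rw [h0, wprod_eq, FF_shift]
      apply prod_congr rfl
      intro k _
      ring
    have h5 : (p : ℤ) ^ 2 ∣ wprod b (a + (p : ℤ) ^ 2 * t) p - wprod b a p := by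
      rw [h4, wprod_eq]
      have h6 : (p : ℤ) ^ 2 ∣ (p : ℤ) * (p * t) *
          ∑ k ∈ FF b a p, (k : ℤ) * ∏ j ∈ (FF b a p).erase k, (b + a * j) := by
        refine ⟨t * ∑ k ∈ FF b a p, (k : ℤ) * ∏ j ∈ (FF b a p).erase k, (b + a * j), ?_⟩
        ring
      have := dvd_add h3 h6
      refine this.trans (dvd_of_eq ?_)
      ring
    constructor
    · intro h
      have := dvd_sub h h5
      refine this.trans (dvd_of_eq ?_)
      ring
    · intro h
      have := dvd_add h h5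
      refine this.trans (dvd_of_eq ?_)
      ring
  rw [h1, h2]

lemma per (b : ℤ) (p : ℕ) (a : ℕ) : IsWilson b ((a + p ^ 2 : ℕ) : ℤ) p ↔ IsWilson b (a : ℤ) p := by
  have h := isWilson_periodic b p a 1
  push_cast
  rw [mul_one] at h
  exact h

/-- **the number of differences modulo `p ^ 2` is `p - 1`** -/
theorem card_local (b : ℤ) {p : ℕ} (hp : p.Prime) (hp2 : p ≠ 2) :
    ((range (p ^ 2)).filter (fun a : ℕ => IsWilson b (a : ℤ) p)).card = p - 1 := by
  have hp0 : 0 < p := hp.pos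
  have hpz : (0 : ℤ) < p := by exact_mod_cast hp0
  have hcard : ((range p).erase 0).card = p - 1 := by
    rw [card_erase_of_mem (mem_range.2 hp0), card_range]
  rw [← hcard]
  refine card_bij (fun a _ => a % p) ?_ ?_ ?_
  · intro a ha
    rw [mem_filter] at ha
    rw [mem_erase, mem_range]
    refine ⟨fun h => ha.2.2.1 ?_, Nat.mod_lt _ hp0⟩
    exact_mod_cast Nat.dvd_of_mod_eq_zero h
  · intro a ha c hc h
    rw [mem_filter, mem_range] at ha hc
    set r := a % p with hr
    have ea : (a : ℤ) = r + p * (a / p : ℕ) := by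
      have := Nat.mod_add_div a p
      exact_mod_cast this.symm
    have ec : (c : ℤ) = r + p * (c / p : ℕ) := by
      have := Nat.mod_add_div c p
      rw [← h] at this
      exact_mod_cast this.symm
    have hra : ¬ (p : ℤ) ∣ (r : ℤ) := by
      intro hd
      apply ha.2.2.1
      rw [ea]
      exact dvd_add hd (Dvd.intro _ rfl)
    obtain ⟨s, hs⟩ := one_lift hp hp2 b r hra
    have h1 := (hs _).1 (ea ▸ ha.2.2.2)
    have h2 := (hs _).1 (ec ▸ hc.2.2.2)
    have h3 : (p : ℤ) ∣ ((a / p : ℕ) : ℤ) - ((c / p : ℕ) : ℤ) := by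
      have := dvd_sub h1 h2
      refine this.trans (dvd_of_eq ?_)
      ring
    have ha1 : a / p < p := by
      rw [Nat.div_lt_iff_lt_mul hp0, ← pow_two]
      exact ha.1
    have hc1 : c / p < p := by
      rw [Nat.div_lt_iff_lt_mul hp0, ← pow_two]
      exact hc.1
    have key : ∀ u v : ℕ, u < p → v < p → (p : ℤ) ∣ (u : ℤ) - (v : ℤ) → u = v := by
      intro u v hu hv hd
      have h4 : (u : ℤ) - v = 0 := Int.eq_zero_of_abs_lt_dvd hd (by
        rw [abs_lt]
        constructor <;> omega)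
      omega
    have h5 : a / p = c / p := key _ _ ha1 hc1 h3
    have h6 := Nat.mod_add_div a p
    have h7 := Nat.mod_add_div c p
    rw [← hr] at h6
    rw [← h] at h7
    rw [← h6, ← h7, h5]
  · intro r hr
    rw [mem_erase, mem_range] at hr
    have hra : ¬ (p : ℤ) ∣ (r : ℤ) := by
      intro hd
      have h1 : p ∣ r := by exact_mod_cast hd
      exact hr.1 (Nat.eq_zero_of_dvd_of_lt h1 hr.2)
    obtain ⟨s, hs⟩ := one_lift hp hp2 b r hra
    set t : ℕ := ((-s) % p).toNat with ht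
    have ht0 : 0 ≤ (-s) % (p : ℤ) := Int.emod_nonneg _ hpz.ne'
    have ht1 : (-s) % (p : ℤ) < p := Int.emod_lt_of_pos _ hpz
    have ht2 : (t : ℤ) = (-s) % p := Int.toNat_of_nonneg ht0
    have htp : t < p := by omega
    have hdv : (p : ℤ) ∣ (t : ℤ) + s := by
      rw [ht2]
      have := Int.emod_add_mul_ediv (-s) p
      refine ⟨-((-s) / p), ?_⟩
      linarith
    have h1 := (hs t).2 hdv
    refine ⟨r + p * t, ?_, ?_⟩
    · rw [mem_filter, mem_range]
      refine ⟨?_, hp, ?_, ?_⟩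
      · have : p * t ≤ p * (p - 1) := Nat.mul_le_mul_left p (by omega)
        have h3 : p * (p - 1) + p = p ^ 2 := by
          rw [pow_two]
          conv_rhs => rw [show p = (p - 1) + 1 by omega]
          rw [Nat.sub_add_cancel hp.one_le]
          conv_lhs => rw [← mul_one p]
          rw [Nat.mul_one, ← Nat.mul_succ, Nat.succ_eq_add_one, Nat.sub_add_cancel hp.one_le]
        omega
      · push_cast
        intro hd
        apply hra
        rwa [Int.dvd_add_left (Dvd.intro _ rfl)] at hd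
      · push_cast
        exact h1
    · simp [Nat.add_mul_mod_self_left, Nat.mod_eq_of_lt hr.2]

/-- the local density -/
noncomputable def gg (p : ℕ) : ℝ := ((p : ℝ) - 1) / (p : ℝ) ^ 2

lemma single (b : ℤ) {p : ℕ} (hp : p.Prime) (hp2 : p ≠ 2) (X : ℕ) :
    |(((Icc 1 X).filter (fun a : ℕ => IsWilson b (a : ℤ) p)).card : ℝ) - gg p * X| ≤ p := by
  have h := count_bound (fun a : ℕ => IsWilson b (a : ℤ) p) (M := p ^ 2) (pow_pos hp.pos 2)
    (fun a => per b p a) (card_local b hp hp2) X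
  rw [Nat.cast_sub hp.one_le] at h
  push_cast at h
  have e : ((p : ℝ) - 1) * X / (p : ℝ) ^ 2 = gg p * X := by unfold gg; ring
  rw [e] at h
  exact h.trans (by linarith)

lemma double (b : ℤ) {p q : ℕ} (hp : p.Prime) (hp2 : p ≠ 2) (hq : q.Prime) (hq2 : q ≠ 2)
    (hpq : p ≠ q) (X : ℕ) :
    |(((Icc 1 X).filter (fun a : ℕ => IsWilson b (a : ℤ) p ∧ IsWilson b (a : ℤ) q)).card : ℝ) -
      gg p * gg q * X| ≤ p * q := by
  have hco : Nat.Coprime (p ^ 2) (q ^ 2) := Nat.Coprime.pow 2 2 ((Nat.coprime_primes hp hq).2 hpq)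
  have hA := fun a : ℕ => per b p a
  have hB := fun a : ℕ => per b q a
  have hcard := card_crt (fun a : ℕ => IsWilson b (a : ℤ) p) (fun a : ℕ => IsWilson b (a : ℤ) q)
    (pow_pos hp.pos 2) (pow_pos hq.pos 2) hco hA hB
  rw [card_local b hp hp2, card_local b hq hq2] at hcard
  have hperA : ∀ (k : ℕ) (a : ℕ), IsWilson b ((a + k * p ^ 2 : ℕ) : ℤ) p ↔ IsWilson b (a : ℤ) p := by
    intro k
    induction k with
    | zero => intro a; simp
    | succ k ih =>
      intro a
      have := hA (a + k * p ^ 2)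
      rw [ih a] at this
      rw [← this]
      have e : a + (k + 1) * p ^ 2 = a + k * p ^ 2 + p ^ 2 := by ring
      rw [e]
  have hperB : ∀ (k : ℕ) (a : ℕ), IsWilson b ((a + k * q ^ 2 : ℕ) : ℤ) q ↔ IsWilson b (a : ℤ) q := by
    intro k
    induction k with
    | zero => intro a; simp
    | succ k ih =>
      intro a
      have := hB (a + k * q ^ 2)
      rw [ih a] at this
      rw [← this]
      have e : a + (k + 1) * q ^ 2 = a + k * q ^ 2 + q ^ 2 := by ring
      rw [e]
  have hper : ∀ a : ℕ, (IsWilson b ((a + p ^ 2 * q ^ 2 : ℕ) : ℤ) p ∧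
      IsWilson b ((a + p ^ 2 * q ^ 2 : ℕ) : ℤ) q) ↔
      (IsWilson b (a : ℤ) p ∧ IsWilson b (a : ℤ) q) := by
    intro a
    have h1 := hperA (q ^ 2) a
    have h2 := hperB (p ^ 2) a
    rw [mul_comm (q ^ 2) (p ^ 2)] at h1
    rw [h1, h2]
  have h := count_bound (fun a : ℕ => IsWilson b (a : ℤ) p ∧ IsWilson b (a : ℤ) q)
    (M := p ^ 2 * q ^ 2) (Nat.mul_pos (pow_pos hp.pos 2) (pow_pos hq.pos 2)) hper hcard X
  have hp1 : (1 : ℝ) ≤ p := by exact_mod_cast hp.one_le
  have hq1 : (1 : ℝ) ≤ q := by exact_mod_cast hq.one_le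
  rw [Nat.cast_mul, Nat.cast_sub hp.one_le, Nat.cast_sub hq.one_le] at h
  push_cast at h
  have e : ((p : ℝ) - 1) * (q - 1) * X / ((p : ℝ) ^ 2 * (q : ℝ) ^ 2) = gg p * gg q * X := by
    unfold gg
    have : (p : ℝ) ≠ 0 := by positivity
    have : (q : ℝ) ≠ 0 := by positivity
    field_simp
  rw [e] at h
  refine h.trans ?_
  nlinarith

end Pool.Agent.Helper92K9.WI
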