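import Pool.Agent.Helper92K9.WI.Poi
import Pool.Agent.H305R2.MertensM

set_option autoImplicit false

/-!
# The Poisson law: assembly
-/

namespace Pool.Agent.Helper92K9.WI

open Finset Filter Topology
open scoped Classical
open Pool.Agent.Helper92K9.MP (sum_inj card_inj cf bonferroni pois_bound)

lemma cf_nonneg (j i : ℕ) : 0 ≤ cf j i := by unfold cf; positivity

lemma cf_le (j i : ℕ) : cf j i ≤ 1 / (i.factorial : ℝ) := by
  unfold cf
  rw [mul_inv, one_div]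
  have h1 : ((j.factorial : ℝ))⁻¹ ≤ 1 := inv_le_one_of_one_le₀ (by exact_mod_cast Nat.one_le_iff_ne_zero.2 j.factorial_ne_zero)
  have h2 : 0 ≤ ((i.factorial : ℝ))⁻¹ := by positivity
  nlinarith

lemma cf_le_one (j i : ℕ) : cf j i ≤ 1 := by
  refine (cf_le j i).trans ?_
  rw [div_le_one (by positivity)]
  exact_mod_cast Nat.one_le_iff_ne_zero.2 i.factorial_ne_zero

/-- explicit form -/
theorem explicit (b : ℤ) (S : Finset ℕ) {u v : ℕ} (hu : 3 ≤ u) (huv : u ≤ v)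
    (hS : ∀ p ∈ S, p.Prime ∧ u ≤ p ∧ p ≤ v) (j m : ℕ) {X : ℕ} (hX : v ^ (2 * (j + m) + 1) ≤ X)
    {B : ℝ} (hB1 : 1 ≤ B) (hB : ∑ p ∈ S, gg p ≤ B) :
    |(((Icc 1 X).filter (fun a : ℕ => NS b S a = j)).card : ℝ) / X -
      Real.exp (-∑ p ∈ S, gg p) * (∑ p ∈ S, gg p) ^ j / (j.factorial : ℝ)| ≤
      (m + 1) * ((1 + ((j : ℝ) + m) ^ 2 * (B ^ (j + m) * B)) / u) + 2 * (B ^ (j + m) / (m.factorial : ℝ)) := by
  have hu' : (3 : ℝ) ≤ u := by exact_mod_cast hu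
  have hv' : (u : ℝ) ≤ v := by exact_mod_cast huv
  have hv1 : (1 : ℝ) ≤ v := by linarith
  have hXr : (v : ℝ) ^ (2 * (j + m) + 1) ≤ X := by exact_mod_cast hX
  have hX0 : (0 : ℝ) < X := lt_of_lt_of_le (by positivity) hXr
  set Λ := ∑ p ∈ S, gg p with hΛ
  have hΛ0 : 0 ≤ Λ := sum_nonneg fun p hp => gg_nonneg (hS p hp).1.one_le
  set M : ℕ → ℝ := fun k => (∑ a ∈ Icc 1 X, ((NS b S a).descFactorial k : ℝ)) / X with hM
  set η : ℝ := (1 + ((j : ℝ) + m) ^ 2 * (B ^ (j + m) * B)) / u with hη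
  have hη0 : 0 ≤ η := by positivity
  have h1 : ∀ k ≤ j + m, |M k - Λ ^ k| ≤ η := by
    intro k hk
    have h2 := fact_moment b S hu hS k X hB1 hB
    have h3 : M k - Λ ^ k = (∑ a ∈ Icc 1 X, ((NS b S a).descFactorial k : ℝ) - Λ ^ k * X) / X := by
      rw [hM]
      field_simp
    rw [h3, abs_div, abs_of_pos hX0, div_le_iff₀ hX0]
    refine h2.trans ?_
    have h4 : (v : ℝ) ^ (2 * k) ≤ 1 / u * X := by
      have h5 : (v : ℝ) ^ (2 * k) * v ≤ X := by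
        rw [← pow_succ]
        refine le_trans (pow_le_pow_right₀ hv1 (by omega)) hXr
      have h6 : (v : ℝ) ^ (2 * k) * u ≤ X := by
        refine le_trans (mul_le_mul_of_nonneg_left hv' (by positivity)) h5
      rw [one_div, inv_mul_eq_div, le_div_iff₀ (by linarith)]
      exact h6
    have hk' : (k : ℝ) ≤ (j : ℝ) + m := by exact_mod_cast hk
    have h7 : (k : ℝ) ^ 2 * (1 / u * (B ^ k * B)) ≤ ((j : ℝ) + m) ^ 2 * (1 / u * (B ^ (j + m) * B)) := by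
      have h8 : B ^ k ≤ B ^ (j + m) := pow_le_pow_right₀ hB1 hk
      gcongr
    have h9 : η * X = 1 / u * X + ((j : ℝ) + m) ^ 2 * (1 / u * (B ^ (j + m) * B)) * X := by
      rw [hη]; ring
    rw [h9]
    exact add_le_add h4 (mul_le_mul_of_nonneg_right h7 hX0.le)
  have hA : (((Icc 1 X).filter (fun a : ℕ => NS b S a = j)).card : ℝ) =
      ∑ a ∈ Icc 1 X, if NS b S a = j then (1 : ℝ) else 0 := by
    rw [sum_boole]
  have h2 : |(((Icc 1 X).filter (fun a : ℕ => NS b S a = j)).card : ℝ) / X -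
      ∑ i ∈ range m, (-1 : ℝ) ^ i * (cf j i * M (j + i))| ≤ cf j m * M (j + m) := by
    have e1 : (((Icc 1 X).filter (fun a : ℕ => NS b S a = j)).card : ℝ) / X -
        ∑ i ∈ range m, (-1 : ℝ) ^ i * (cf j i * M (j + i)) =
        (∑ a ∈ Icc 1 X, ((if NS b S a = j then (1 : ℝ) else 0) -
          ∑ i ∈ range m, (-1 : ℝ) ^ i * (cf j i * ((NS b S a).descFactorial (j + i) : ℝ)))) / X := by
      rw [hA, sum_sub_distrib, sub_div, sum_comm (s := Icc 1 X)]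
      congr 1
      rw [sum_div]
      apply sum_congr rfl
      intro i _
      simp only [hM]
      rw [← mul_sum, ← mul_sum]
      ring
    rw [e1, abs_div, abs_of_pos hX0, div_le_iff₀ hX0]
    refine (abs_sum_le_sum_abs _ _).trans ?_
    refine (sum_le_sum fun a _ => bonferroni (NS b S a) j m).trans ?_
    rw [← mul_sum]
    simp only [hM]
    apply le_of_eq
    field_simp
  have h3 : |∑ i ∈ range m, (-1 : ℝ) ^ i * (cf j i * M (j + i)) -
      ∑ i ∈ range m, (-1 : ℝ) ^ i * (cf j i * Λ ^ (j + i))| ≤ m * η := by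
    rw [← sum_sub_distrib]
    refine (abs_sum_le_sum_abs _ _).trans ?_
    have : ∀ i ∈ range m, |(-1 : ℝ) ^ i * (cf j i * M (j + i)) - (-1 : ℝ) ^ i * (cf j i * Λ ^ (j + i))| ≤ η := by
      intro i hi
      rw [mem_range] at hi
      have e : (-1 : ℝ) ^ i * (cf j i * M (j + i)) - (-1 : ℝ) ^ i * (cf j i * Λ ^ (j + i)) =
          (-1 : ℝ) ^ i * (cf j i * (M (j + i) - Λ ^ (j + i))) := by ring
      rw [e, abs_mul, abs_pow, abs_neg, abs_one, one_pow, one_mul, abs_mul, abs_of_nonneg (cf_nonneg j i)]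
      have h4 := h1 (j + i) (by omega)
      calc cf j i * |M (j + i) - Λ ^ (j + i)| ≤ 1 * η :=
            mul_le_mul (cf_le_one j i) h4 (abs_nonneg _) zero_le_one
        _ = η := one_mul _
    refine (sum_le_sum this).trans ?_
    rw [sum_const, card_range, nsmul_eq_mul]
  have h4 := pois_bound j m hΛ0
  have h5 : cf j m * M (j + m) ≤ cf j m * Λ ^ (j + m) + η := by
    have h6 := (abs_le.1 (h1 (j + m) le_rfl)).2
    have h7 := cf_nonneg j m
    have h8 := cf_le_one j m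
    nlinarith
  have h9 : cf j m * Λ ^ (j + m) ≤ B ^ (j + m) / (m.factorial : ℝ) := by
    have h10 : Λ ^ (j + m) ≤ B ^ (j + m) := pow_le_pow_left₀ hΛ0 hB _
    calc cf j m * Λ ^ (j + m) ≤ 1 / (m.factorial : ℝ) * B ^ (j + m) :=
          mul_le_mul (cf_le j m) h10 (by positivity) (by positivity)
      _ = _ := by ring
  rw [abs_le] at h2 h3 h4 ⊢
  constructor <;> linarith [h2.1, h2.2, h3.1, h3.2, h4.1, h4.2]

/-- the sum of `1 / p ^ 2` -/
lemma gg_sum (S : Finset ℕ) {u v : ℕ} (hu : 1 ≤ u) (hS : ∀ p ∈ S, p.Prime ∧ u ≤ p ∧ p ≤ v) :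
    |∑ p ∈ S, gg p - ∑ p ∈ S, (1 : ℝ) / p| ≤ 2 / u := by
  have h1 : ∑ p ∈ S, (1 : ℝ) / p - ∑ p ∈ S, gg p = ∑ p ∈ S, ((p : ℝ) ^ 2)⁻¹ := by
    rw [← sum_sub_distrib]
    apply sum_congr rfl
    intro p hp
    have : (p : ℝ) ≠ 0 := by exact_mod_cast (hS p hp).1.ne_zero
    unfold gg
    field_simp
    ring
  have h2 : ∑ p ∈ S, ((p : ℝ) ^ 2)⁻¹ ≤ ∑ p ∈ Ioo (u - 1) (v + 1), ((p : ℝ) ^ 2)⁻¹ := by
    apply sum_le_sum_of_subset_of_nonneg
    · intro p hp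
      rw [mem_Ioo]
      have := (hS p hp).2
      omega
    · intro _ _ _; positivity
  have h3 := sum_Ioo_inv_sq_le (α := ℝ) (u - 1) (v + 1)
  have h4 : ((u - 1 : ℕ) : ℝ) + 1 = u := by
    rw [Nat.cast_sub hu]; simp
  rw [h4] at h3
  have h5 : 0 ≤ ∑ p ∈ S, ((p : ℝ) ^ 2)⁻¹ := sum_nonneg fun _ _ => by positivity
  rw [abs_sub_comm, h1, abs_of_nonneg h5]
  linarith

/-- **the Poisson law for a set of primes** -/
theorem poisson (j : ℕ) (l0 : ℝ) {ε : ℝ} (hε : 0 < ε) : ∃ u0 D : ℕ, ∀ (b : ℤ) (S : Finset ℕ) (v X : ℕ),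
    u0 ≤ v → (∀ p ∈ S, p.Prime ∧ u0 ≤ p ∧ p ≤ v) → ∑ p ∈ S, (1 : ℝ) / p ≤ l0 → v ^ D ≤ X →
    |(((Icc 1 X).filter (fun a : ℕ => NS b S a = j)).card : ℝ) / X -
      Real.exp (-∑ p ∈ S, (1 : ℝ) / p) * (∑ p ∈ S, (1 : ℝ) / p) ^ j / (j.factorial : ℝ)| ≤ ε := by
  set B : ℝ := max l0 0 + 1 with hB
  have hB1 : 1 ≤ B := by rw [hB]; linarith [le_max_right l0 0]
  -- choice of `m`
  have hm : ∃ m : ℕ, 2 * (B ^ (j + m) / (m.factorial : ℝ)) ≤ ε / 3 := by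
    have h1 := FloorSemiring.tendsto_pow_div_factorial_atTop B
    have h2 := (h1.const_mul (2 * B ^ j))
    rw [mul_zero] at h2
    have h3 := h2.eventually (gt_mem_nhds (by positivity : 0 < ε / 3))
    obtain ⟨m, hm⟩ := h3.exists
    refine ⟨m, le_of_eq_of_le ?_ hm.le⟩
    rw [pow_add]
    ring
  obtain ⟨m, hm⟩ := hm
  -- uniform continuity
  have hcont : ContinuousOn (fun x : ℝ => Real.exp (-x) * x ^ j / (j.factorial : ℝ)) (Set.Icc 0 B) := by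
    fun_prop
  have huc := isCompact_Icc.uniformContinuousOn_of_continuous hcont
  rw [Metric.uniformContinuousOn_iff] at huc
  obtain ⟨δ, hδ, huc⟩ := huc (ε / 3) (by positivity)
  set K : ℝ := (m + 1) * (1 + ((j : ℝ) + m) ^ 2 * (B ^ (j + m) * B)) with hK
  have hK0 : 0 < K := by positivity
  obtain ⟨u0, hu0⟩ := exists_nat_gt (max 3 (max (2 / δ) (K / (ε / 3))))
  have hu3 : (3 : ℝ) < u0 := lt_of_le_of_lt (le_max_left _ _) hu0
  have huδ : 2 / δ < u0 := lt_of_le_of_lt ((le_max_left _ _).trans (le_max_right _ _)) hu0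
  have huK : K / (ε / 3) < u0 := lt_of_le_of_lt ((le_max_right _ _).trans (le_max_right _ _)) hu0
  have hu3' : 3 ≤ u0 := by exact_mod_cast hu3.le
  refine ⟨u0, 2 * (j + m) + 1, fun b S v X huv hS hl hX => ?_⟩
  have hμ0 : 0 ≤ ∑ p ∈ S, (1 : ℝ) / p := sum_nonneg fun _ _ => by positivity
  have hΛ0 : 0 ≤ ∑ p ∈ S, gg p := sum_nonneg fun p hp => gg_nonneg (hS p hp).1.one_le
  have hΛμ : ∑ p ∈ S, gg p ≤ ∑ p ∈ S, (1 : ℝ) / p := by
    apply sum_le_sum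
    intro p hp
    have : (0 : ℝ) < p := by exact_mod_cast (hS p hp).1.pos
    unfold gg
    rw [div_le_div_iff₀ (by positivity) this]
    nlinarith
  have hμB : ∑ p ∈ S, (1 : ℝ) / p ≤ B := by
    rw [hB]; linarith [le_max_left l0 0]
  have h1 := explicit b S hu3' huv hS j m hX hB1 (hΛμ.trans hμB)
  have h2 := gg_sum S (by omega : 1 ≤ u0) hS
  have h3 : |Real.exp (-∑ p ∈ S, gg p) * (∑ p ∈ S, gg p) ^ j / (j.factorial : ℝ) -
      Real.exp (-∑ p ∈ S, (1 : ℝ) / p) * (∑ p ∈ S, (1 : ℝ) / p) ^ j / (j.factorial : ℝ)| < ε / 3 := by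
    have := huc _ ⟨hΛ0, hΛμ.trans hμB⟩ _ ⟨hμ0, hμB⟩ (by
      rw [Real.dist_eq]
      refine lt_of_le_of_lt h2 ?_
      rw [div_lt_iff₀ (by linarith)]
      rw [div_lt_iff₀ hδ] at huδ
      linarith)
    rwa [Real.dist_eq] at this
  have h4 : ((m : ℝ) + 1) * ((1 + ((j : ℝ) + m) ^ 2 * (B ^ (j + m) * B)) / u0) ≤ ε / 3 := by
    have e : ((m : ℝ) + 1) * ((1 + ((j : ℝ) + m) ^ 2 * (B ^ (j + m) * B)) / u0) = K / u0 := by
      rw [hK]; ring
    rw [e, div_le_iff₀ (by linarith)]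
    rw [div_lt_iff₀ (by positivity)] at huK
    linarith
  rw [abs_le] at h1 ⊢
  rw [abs_lt] at h3
  constructor <;> linarith [h1.1, h1.2, h3.1, h3.2]

end Pool.Agent.Helper92K9.WI
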