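import Mathlib

set_option autoImplicit false

/-!
# Wilson primes of arithmetic progressions: the local count
-/

namespace Pool.Agent.Helper92K9.WI

open Finset

/-- the product of those among the first `p` terms `b, b + a, …, b + (p-1)a` of the progression
that are not divisible by `p` -/
def wprod (b a : ℤ) (p : ℕ) : ℤ :=
  ∏ k ∈ (range p).filter (fun k : ℕ => ¬ (p : ℤ) ∣ b + a * k), (b + a * k)

/-- `p` is a Wilson prime of the progression `b, b + a, b + 2a, …` -/
def IsWilson (b a : ℤ) (p : ℕ) : Prop :=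
  p.Prime ∧ ¬ (p : ℤ) ∣ a ∧ (p : ℤ) ^ 2 ∣ wprod b a p + 1

/-- the index set -/
def FF (b a : ℤ) (p : ℕ) : Finset ℕ := (range p).filter (fun k : ℕ => ¬ (p : ℤ) ∣ b + a * k)

lemma FF_shift (b a : ℤ) (p : ℕ) (t : ℤ) : FF b (a + p * t) p = FF b a p := by
  unfold FF
  apply filter_congr
  intro k _
  have : b + (a + p * t) * k = b + a * k + p * (t * k) := by ring
  rw [this, Int.dvd_add_left (Dvd.intro _ rfl)]

/-- first order expansion of a product modulo `p ^ 2` -/
lemma prod_expand {ι : Type*} [DecidableEq ι] (F : Finset ι) (x y : ι → ℤ) (p t : ℤ) :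
    p ^ 2 ∣ ∏ k ∈ F, (x k + p * t * y k) -
      (∏ k ∈ F, x k + p * t * ∑ k ∈ F, y k * ∏ j ∈ F.erase k, x j) := by
  induction F using Finset.induction_on with
  | empty => simp
  | insert i F hi ih =>
    obtain ⟨c, hc⟩ := ih
    rw [prod_insert hi, prod_insert hi, sum_insert hi, erase_insert hi]
    have h1 : ∑ k ∈ F, y k * ∏ j ∈ (insert i F).erase k, x j =
        x i * ∑ k ∈ F, y k * ∏ j ∈ F.erase k, x j := by
      rw [mul_sum]
      apply sum_congr rfl
      intro k hk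
      have hki : k ≠ i := fun h => hi (h ▸ hk)
      rw [erase_insert_of_ne hki.symm, prod_insert (fun h => hi (mem_of_mem_erase h))]
      ring
    rw [h1]
    have h2 : ∏ k ∈ F, (x k + p * t * y k) =
        ∏ k ∈ F, x k + p * t * ∑ k ∈ F, y k * ∏ j ∈ F.erase k, x j + p ^ 2 * c := by
      linarith
    rw [h2]
    refine ⟨(x i + p * t * y i) * c + t ^ 2 * y i * ∑ k ∈ F, y k * ∏ j ∈ F.erase k, x j, ?_⟩
    ring

section field
variable {p : ℕ} [hp : Fact p.Prime]

/-- the terms of the progression run over the nonzero residues -/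
lemma prod_FF {M : Type*} [CommMonoid M] {b a : ℤ} (ha : (a : ZMod p) ≠ 0) (f : ZMod p → M) :
    ∏ k ∈ FF b a p, f ((b : ZMod p) + a * k) = ∏ m ∈ (univ : Finset (ZMod p)).erase 0, f m := by
  refine prod_bij (fun k _ => (b : ZMod p) + a * k) ?_ ?_ ?_ (fun k _ => rfl)
  · intro k hk
    rw [FF, mem_filter] at hk
    refine mem_erase.2 ⟨fun h => hk.2 ?_, mem_univ _⟩
    rw [← ZMod.intCast_zmod_eq_zero_iff_dvd]
    push_cast
    exact h
  · intro k hk l hl h
    have h1 := add_left_cancel h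
    have h2 := mul_left_cancel₀ ha h1
    rw [FF, mem_filter, mem_range] at hk hl
    have h3 := (ZMod.natCast_eq_natCast_iff' k l p).1 h2
    rwa [Nat.mod_eq_of_lt hk.1, Nat.mod_eq_of_lt hl.1] at h3
  · intro m hm
    have hm0 : m ≠ 0 := (mem_erase.1 hm).1
    have hc : (b : ZMod p) + a * (((m - b) / a).val : ℕ) = m := by
      rw [ZMod.natCast_val, ZMod.cast_id]
      field_simp
      ring
    refine ⟨((m - b) / a).val, ?_, hc⟩
    rw [FF, mem_filter, mem_range]
    refine ⟨ZMod.val_lt _, fun h => hm0 ?_⟩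
    rw [← ZMod.intCast_zmod_eq_zero_iff_dvd] at h
    push_cast at h
    rw [← hc]
    exact h

lemma prod_eq_neg_one {b a : ℤ} (ha : (a : ZMod p) ≠ 0) :
    ∏ k ∈ FF b a p, ((b : ZMod p) + a * k) = -1 := by
  rw [prod_FF (M := ZMod p) ha (fun m => m)]
  have h := FiniteField.prod_univ_units_id_eq_neg_one (K := ZMod p)
  have h2 : ∏ m ∈ (univ : Finset (ZMod p)).erase 0, m = ((∏ x : (ZMod p)ˣ, x : (ZMod p)ˣ) : ZMod p) := by
    rw [Units.coe_prod]
    symm
    refine prod_bij (fun u _ => (u : ZMod p)) ?_ ?_ ?_ (fun _ _ => rfl)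
    · intro u _
      exact mem_erase.2 ⟨u.ne_zero, mem_univ _⟩
    · intro u _ v _ h
      exact Units.ext h
    · intro m hm
      exact ⟨Units.mk0 m (mem_erase.1 hm).1, mem_univ _, rfl⟩
  rw [h2, h]
  simp

lemma sum_inv_zero (hp2 : p ≠ 2) : ∑ m ∈ (univ : Finset (ZMod p)).erase 0, m⁻¹ = 0 := by
  have h1 : ∑ m ∈ (univ : Finset (ZMod p)).erase 0, m⁻¹ = ∑ m : ZMod p, m⁻¹ := by
    rw [← add_sum_erase univ (fun m : ZMod p => m⁻¹) (mem_univ 0)]
    simp
  rw [h1]
  have h2 : ∑ m : ZMod p, m⁻¹ = ∑ m : ZMod p, m :=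
    Equiv.sum_comp (Equiv.inv (ZMod p)) (fun m => m)
  rw [h2]
  have h3 := FiniteField.sum_pow_lt_card_sub_one (K := ZMod p) 1 (by
    rw [ZMod.card]
    have := hp.out.two_le
    omega)
  simpa using h3

/-- the derivative -/
lemma deriv_eq {b a : ℤ} (ha : (a : ZMod p) ≠ 0) (hp2 : p ≠ 2) :
    (a : ZMod p) * ∑ k ∈ FF b a p, (k : ZMod p) * ∏ j ∈ (FF b a p).erase k, ((b : ZMod p) + a * j)
      = 1 := by
  have h1 : ∀ k ∈ FF b a p, (k : ZMod p) * ∏ j ∈ (FF b a p).erase k, ((b : ZMod p) + a * j) =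
      - ((k : ZMod p) * ((b : ZMod p) + a * k)⁻¹) := by
    intro k hk
    have hne : (b : ZMod p) + a * k ≠ 0 := by
      intro h
      have hk2 := (mem_filter.1 hk).2
      apply hk2
      rw [← ZMod.intCast_zmod_eq_zero_iff_dvd]
      push_cast
      exact h
    have h2 := mul_prod_erase (FF b a p) (fun j : ℕ => (b : ZMod p) + a * j) hk
    rw [prod_eq_neg_one ha] at h2
    have h3 : ∏ j ∈ (FF b a p).erase k, ((b : ZMod p) + a * j) = - ((b : ZMod p) + a * k)⁻¹ := by
      field_simp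
      linear_combination h2
    rw [h3]
    ring
  rw [sum_congr rfl h1, mul_sum]
  have h4 : ∀ k ∈ FF b a p, (a : ZMod p) * - ((k : ZMod p) * ((b : ZMod p) + a * k)⁻¹) =
      (fun m : ZMod p => (b : ZMod p) * m⁻¹ - 1) ((b : ZMod p) + a * k) := by
    intro k hk
    have hne : (b : ZMod p) + a * k ≠ 0 := by
      intro h
      have hk2 := (mem_filter.1 hk).2
      apply hk2
      rw [← ZMod.intCast_zmod_eq_zero_iff_dvd]
      push_cast
      exact h
    simp only
    field_simp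
    ring
  rw [sum_congr rfl h4]
  have h5 := prod_FF (M := Multiplicative (ZMod p)) (b := b) ha
    (fun m => Multiplicative.ofAdd ((b : ZMod p) * m⁻¹ - 1))
  have h6 : ∑ k ∈ FF b a p, (fun m : ZMod p => (b : ZMod p) * m⁻¹ - 1) ((b : ZMod p) + a * k) =
      ∑ m ∈ (univ : Finset (ZMod p)).erase 0, ((b : ZMod p) * m⁻¹ - 1) := by
    have := congrArg Multiplicative.toAdd h5
    simpa [toAdd_prod] using this
  rw [h6, sum_sub_distrib, ← mul_sum, sum_inv_zero hp2, mul_zero]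
  rw [sum_const, card_erase_of_mem (mem_univ _), card_univ, ZMod.card]
  rw [nsmul_one, Nat.cast_sub hp.out.one_le]
  simp

end field

lemma wprod_eq (b a : ℤ) (p : ℕ) : wprod b a p = ∏ k ∈ FF b a p, (b + a * k) := rfl

/-- **exactly one lift** -/
lemma one_lift {p : ℕ} (hp : p.Prime) (hp2 : p ≠ 2) (b a : ℤ) (ha : ¬ (p : ℤ) ∣ a) :
    ∃ s : ℤ, ∀ t : ℤ, (p : ℤ) ^ 2 ∣ wprod b (a + p * t) p + 1 ↔ (p : ℤ) ∣ t + s := by
  have : Fact p.Prime := ⟨hp⟩
  have ha' : (a : ZMod p) ≠ 0 := fun h => ha ((ZMod.intCast_zmod_eq_zero_iff_dvd a p).1 h)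
  have hP : (p : ℤ) ∣ wprod b a p + 1 := by
    rw [← ZMod.intCast_zmod_eq_zero_iff_dvd, wprod_eq]
    push_cast
    rw [prod_eq_neg_one ha']
    ring
  obtain ⟨u, hu⟩ := hP
  set D : ℤ := ∑ k ∈ FF b a p, (k : ℤ) * ∏ j ∈ (FF b a p).erase k, (b + a * j) with hD
  have hDa : (p : ℤ) ∣ a * D - 1 := by
    rw [← ZMod.intCast_zmod_eq_zero_iff_dvd, hD]
    push_cast
    rw [deriv_eq ha' hp2]
    ring
  obtain ⟨v, hv⟩ := hDa
  have hp0 : (p : ℤ) ≠ 0 := by exact_mod_cast hp.ne_zero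
  refine ⟨a * u, fun t => ?_⟩
  have h1 := prod_expand (FF b a p) (fun k : ℕ => b + a * (k : ℤ)) (fun k : ℕ => (k : ℤ)) p t
  have h2 : wprod b (a + p * t) p = ∏ k ∈ FF b a p, (b + a * (k : ℤ) + p * t * k) := by
    rw [wprod_eq, FF_shift]
    apply prod_congr rfl
    intro k _
    ring
  have h3 : (p : ℤ) ^ 2 ∣ wprod b (a + p * t) p + 1 - p * (u + t * D) := by
    rw [h2]
    have h4 : ∏ k ∈ FF b a p, (b + a * (k : ℤ)) = p * u - 1 := by
      rw [← wprod_eq]; linarith
    rw [h4] at h1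
    have h5 : ∏ k ∈ FF b a p, (b + a * (k : ℤ) + p * t * k) + 1 - p * (u + t * D) =
        ∏ k ∈ FF b a p, (b + a * (k : ℤ) + p * t * k) - (p * u - 1 + p * t * D) := by ring
    rw [h5]
    exact h1
  have h6 : (p : ℤ) ^ 2 ∣ wprod b (a + p * t) p + 1 ↔ (p : ℤ) ^ 2 ∣ p * (u + t * D) := by
    constructor
    · intro h
      have := dvd_sub h h3
      simpa using this
    · intro h
      have := dvd_add h3 h
      simpa using this
  rw [h6, pow_two, mul_dvd_mul_iff_left hp0]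
  have hpa : IsCoprime (p : ℤ) a := (Int.prime_iff_natAbs_prime.2 (by simpa using hp)).coprime_iff_not_dvd.2 ha
  have h7 : (p : ℤ) ∣ u + t * D ↔ (p : ℤ) ∣ a * (u + t * D) := by
    constructor
    · intro h; exact Dvd.dvd.mul_left h a
    · intro h; exact hpa.dvd_of_dvd_mul_left h
  rw [h7]
  have h8 : a * (u + t * D) = (t + a * u) + p * (t * v) := by
    have : a * D = 1 + p * v := by linarith
    calc a * (u + t * D) = a * u + t * (a * D) := by ring
      _ = _ := by rw [this]; ring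
  rw [h8, Int.dvd_add_left (Dvd.intro _ rfl)]

end Pool.Agent.Helper92K9.WI
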