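import Mathlib

set_option autoImplicit false

/-!
# A model: independent uniform residues
-/

namespace Pool.Agent.Helper92K9.WI

open Finset MeasureTheory
open scoped Classical ENNReal

lemma um_ne (p : ℕ) : (range (max 1 (p ^ 2))).Nonempty := ⟨0, mem_range.2 (by omega)⟩

/-- the uniform measure on `{0, …, p ^ 2 - 1}` -/
noncomputable def um (p : ℕ) : Measure ℕ :=
  (PMF.uniformOfFinset (range (max 1 (p ^ 2))) (um_ne p)).toMeasure

instance (p : ℕ) : IsProbabilityMeasure (um p) := by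
  unfold um
  infer_instance

lemma um_res {p : ℕ} (hp : 1 ≤ p) {r : ℕ} (hr : r < p ^ 2) :
    um p {n | n % p ^ 2 = r} = ENNReal.ofReal (1 / (p : ℝ) ^ 2) := by
  have hp2 : 1 ≤ p ^ 2 := Nat.one_le_pow _ _ hp
  unfold um
  rw [PMF.toMeasure_uniformOfFinset_apply _ _ MeasurableSet.of_discrete]
  have h1 : max 1 (p ^ 2) = p ^ 2 := max_eq_right hp2
  have key : ∀ S : Finset ℕ, (∀ x, x ∈ S ↔ x = r) → S.card = 1 := fun S h =>
    card_eq_one.2 ⟨r, by ext x; rw [h, mem_singleton]⟩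
  have h2 : ∀ inst : DecidablePred (fun x : ℕ => x ∈ {n | n % p ^ 2 = r}),
      (@Finset.filter ℕ (fun x => x ∈ {n | n % p ^ 2 = r}) inst (range (max 1 (p ^ 2)))).card = 1 := by
    intro inst
    apply key
    intro x
    rw [mem_filter, mem_range, h1]
    constructor
    · rintro ⟨h, h'⟩
      rw [Set.mem_ofPred_eq, Nat.mod_eq_of_lt h] at h'
      exact h'
    · rintro rfl
      exact ⟨hr, Nat.mod_eq_of_lt hr⟩
  rw [h2, card_range, h1]
  rw [ENNReal.ofReal_div_of_pos (by positivity), ENNReal.ofReal_one, ← Nat.cast_pow, ENNReal.ofReal_natCast]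
  simp

/-- the product measure -/
noncomputable def PM : Measure (ℕ → ℕ) := Measure.infinitePi um

instance : IsProbabilityMeasure PM := by
  unfold PM
  infer_instance

lemma PM_one {p : ℕ} (hp : p.Prime) {r : ℕ} (hr : r < p ^ 2) :
    PM.real {ω | ω p % p ^ 2 = r} = 1 / (p : ℝ) ^ 2 := by
  have h1 : {ω : ℕ → ℕ | ω p % p ^ 2 = r} = Set.pi (({p} : Finset ℕ) : Set ℕ) (fun q => {n | n % q ^ 2 = r}) := by
    ext ω
    simp
  rw [Measure.real, PM, h1, Measure.infinitePi_pi _ (fun i _ => MeasurableSet.of_discrete), prod_singleton,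
    um_res hp.one_le hr, ENNReal.toReal_ofReal (by positivity)]

lemma PM_two {p q : ℕ} (hp : p.Prime) (hq : q.Prime) (hpq : p ≠ q) {r s : ℕ} (hr : r < p ^ 2)
    (hs : s < q ^ 2) :
    PM.real {ω | ω p % p ^ 2 = r ∧ ω q % q ^ 2 = s} = 1 / ((p : ℝ) ^ 2 * (q : ℝ) ^ 2) := by
  set t : ℕ → Set ℕ := fun i => if i = p then {n | n % p ^ 2 = r} else {n | n % q ^ 2 = s} with ht
  have h1 : {ω : ℕ → ℕ | ω p % p ^ 2 = r ∧ ω q % q ^ 2 = s} =
      Set.pi (({p, q} : Finset ℕ) : Set ℕ) t := by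
    ext ω
    simp [ht, hpq.symm]
  rw [Measure.real, PM, h1, Measure.infinitePi_pi _ (fun i _ => MeasurableSet.of_discrete), prod_pair hpq]
  have e1 : t p = {n | n % p ^ 2 = r} := by simp [ht]
  have e2 : t q = {n | n % q ^ 2 = s} := by simp [ht, hpq.symm]
  rw [e1, e2, um_res hp.one_le hr, um_res hq.one_le hs, ENNReal.toReal_mul,
    ENNReal.toReal_ofReal (by positivity), ENNReal.toReal_ofReal (by positivity)]
  field_simp

end Pool.Agent.Helper92K9.WI
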