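import Pool.Agent.Helper92K9.WI.Var

set_option autoImplicit false

/-!
# The progressions of difference 1: Wilson primes of order `n`; density one
-/

namespace Pool.Agent.Helper92K9.WI

open Finset Filter
open scoped Classical Nat

lemma prod_neg (m : ℕ) : ∏ k ∈ range m, ((k : ℤ) - m) = (-1) ^ m * (m ! : ℤ) := by
  rw [← prod_range_reflect]
  have h1 : ∀ k ∈ range m, (((m - 1 - k : ℕ) : ℤ) - m) = -1 * ((k + 1 : ℕ) : ℤ) := by
    intro k hk
    rw [mem_range] at hk
    omega
  rw [prod_congr rfl h1, prod_mul_distrib, prod_const, card_range]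
  congr 1
  rw [← prod_range_add_one_eq_factorial]
  push_cast
  rfl

lemma prod_pos' (m p : ℕ) : ∏ k ∈ Ico (m + 1) p, ((k : ℤ) - m) = ((p - (m + 1)) ! : ℕ) := by
  rw [prod_Ico_eq_prod_range, ← prod_range_add_one_eq_factorial]
  push_cast
  apply prod_congr rfl
  intro k _
  push_cast
  ring

/-- the progressions of difference 1 give the Wilson primes of order `n` -/
theorem order_n (n p : ℕ) (hn : 1 ≤ n) (hnp : n ≤ p) :
    IsWilson (1 - n) 1 p ↔
      p.Prime ∧ (p : ℤ) ^ 2 ∣ ((n - 1) ! : ℕ) * ((p - n) ! : ℕ) - (-1) ^ n := by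
  obtain ⟨m, rfl⟩ : ∃ m, n = m + 1 := ⟨n - 1, by omega⟩
  have hF : (range p).filter (fun k : ℕ => ¬ (p : ℤ) ∣ (1 - ((m + 1 : ℕ) : ℤ)) + 1 * k) =
      range m ∪ Ico (m + 1) p := by
    ext k
    rw [mem_filter, mem_range, mem_union, mem_range, mem_Ico]
    constructor
    · rintro ⟨h1, h2⟩
      by_contra h3
      apply h2
      have : k = m := by omega
      rw [this]
      push_cast
      ring_nf
      exact dvd_zero _
    · intro h
      refine ⟨by omega, fun hd => ?_⟩
      have h4 : (1 - ((m + 1 : ℕ) : ℤ)) + 1 * k = 0 := by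
        apply Int.eq_zero_of_abs_lt_dvd hd
        rw [abs_lt]
        constructor <;> omega
      omega
  have hdis : Disjoint (range m) (Ico (m + 1) p) := by
    rw [disjoint_left]
    intro k h1 h2
    rw [mem_range] at h1
    rw [mem_Ico] at h2
    omega
  have hw : wprod (1 - ((m + 1 : ℕ) : ℤ)) 1 p =
      (-1) ^ m * (m ! : ℤ) * ((p - (m + 1)) ! : ℕ) := by
    unfold wprod
    rw [hF, prod_union hdis, ← prod_neg, ← prod_pos']
    congr 1
    · apply prod_congr rfl
      intro k _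
      push_cast
      ring
    · apply prod_congr rfl
      intro k _
      push_cast
      ring
  unfold IsWilson
  rw [hw]
  constructor
  · rintro ⟨hp, -, h⟩
    refine ⟨hp, ?_⟩
    have h1 := Dvd.dvd.mul_left h ((-1 : ℤ) ^ m)
    refine h1.trans (dvd_of_eq ?_)
    have e : ((-1 : ℤ) ^ m) * (-1) ^ m = 1 := by rw [← mul_pow]; simp
    rw [Nat.add_sub_cancel, pow_succ]
    linear_combination (m ! : ℤ) * ((p - (m + 1)) ! : ℕ) * e
  · rintro ⟨hp, h⟩
    refine ⟨hp, ?_, ?_⟩
    · intro hd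
      have := Int.eq_one_of_dvd_one (by positivity) hd
      have h2 := hp.one_lt
      omega
    · have h1 := Dvd.dvd.mul_left h ((-1 : ℤ) ^ m)
      refine h1.trans (dvd_of_eq ?_)
      have e : ((-1 : ℤ) ^ m) * (-1) ^ m = 1 := by rw [← mul_pow]; simp
      rw [Nat.add_sub_cancel, pow_succ]
      linear_combination e

lemma NW_mono (b a : ℤ) {y z : ℕ} (h : y ≤ z) : NW b a y ≤ NW b a z := by
  unfold NW
  apply card_le_card
  apply filter_subset_filter
  exact Icc_subset_Icc le_rfl h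

/-- **density one** -/
theorem density (K : ℕ) {ε : ℝ} (hε : 0 < ε) : ∃ X0 : ℕ, ∀ X : ℕ, X0 ≤ X → ∀ b : ℤ,
    (((Icc 1 X).filter (fun a : ℕ => NW b a X < K)).card : ℝ) ≤ ε * X := by
  obtain ⟨C, hC0, hC⟩ := main
  have hLt : Tendsto (fun y : ℕ => Real.log (Real.log y)) atTop atTop :=
    Real.tendsto_log_atTop.comp (Real.tendsto_log_atTop.comp tendsto_natCast_atTop_atTop)
  obtain ⟨Y, hY⟩ := eventually_atTop.1 (hLt.eventually_ge_atTop (max (max 1 (2 * K)) (8 * C / ε)))
  refine ⟨(max Y 3) ^ 4, fun X hX b => ?_⟩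
  set y := max Y 3 with hy
  have hy3 : 3 ≤ y := le_max_right _ _
  have hX0 : (0 : ℝ) ≤ X := Nat.cast_nonneg X
  have hyX : y ≤ X := (Nat.le_self_pow (by norm_num) y).trans hX
  set L := Real.log (Real.log (y : ℕ)) with hL
  have hLY := hY y (le_max_left _ _)
  have hL1 : 1 ≤ L := ((le_max_left _ _).trans (le_max_left _ _)).trans hLY
  have hLK : 2 * (K : ℝ) ≤ L := ((le_max_right _ _).trans (le_max_left _ _)).trans hLY
  have hLC : 8 * C / ε ≤ L := (le_max_right _ _).trans hLY
  have hm := hC b X y hy3 hX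
  set B := (Icc 1 X).filter (fun a : ℕ => NW b a X < K) with hB
  have h1 : (B.card : ℝ) * (L / 2) ^ 2 ≤ ∑ a ∈ Icc 1 X, ((NW b a y : ℝ) - L) ^ 2 := by
    have h2 : ∑ a ∈ B, ((NW b a y : ℝ) - L) ^ 2 ≤ ∑ a ∈ Icc 1 X, ((NW b a y : ℝ) - L) ^ 2 :=
      sum_le_sum_of_subset_of_nonneg (filter_subset _ _) fun _ _ _ => sq_nonneg _
    refine le_trans ?_ h2
    rw [← nsmul_eq_mul, ← sum_const]
    apply sum_le_sum
    intro a ha
    have h3 : NW b a X < K := (mem_filter.1 ha).2
    have h4 : NW b a y ≤ K := (NW_mono b a hyX).trans h3.le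
    have h5 : (NW b a y : ℝ) ≤ K := by exact_mod_cast h4
    nlinarith
  have h6 : (B.card : ℝ) * (L / 2) ^ 2 ≤ C * (L + 1) * X := h1.trans hm
  have h7 : C * (L + 1) * X ≤ 2 * C * L * X := by
    have : 0 ≤ C * X * (L - 1) := by
      apply mul_nonneg (by positivity)
      linarith
    nlinarith
  have h8 : 8 * C ≤ L * ε := by
    rw [div_le_iff₀ hε] at hLC
    exact hLC
  have hL0 : 0 < L := by linarith
  have h9 : (B.card : ℝ) * L ≤ 8 * C * X := by
    have h10 : (B.card : ℝ) * L * (L / 4) ≤ 8 * C * X * (L / 4) := by nlinarith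
    exact le_of_mul_le_mul_right h10 (by positivity)
  have h11 : (B.card : ℝ) * L ≤ (ε * X) * L := by
    refine h9.trans ?_
    have := mul_le_mul_of_nonneg_right h8 hX0
    nlinarith
  exact le_of_mul_le_mul_right h11 hL0

end Pool.Agent.Helper92K9.WI
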