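import Pool.Agent.Helper92K9.WI.Loc

set_option autoImplicit false

/-!
# Wilson primes of different orders
-/

namespace Pool.Agent.Helper92K9.WI

open Finset Polynomial
open scoped Classical Nat

/-- `p` is a Wilson prime of order `n` -/
def Ord (n p : ℕ) : Prop :=
  p.Prime ∧ 1 ≤ n ∧ n ≤ p ∧ (p : ℤ) ^ 2 ∣ ((n - 1) ! : ℕ) * ((p - n) ! : ℕ) - (-1) ^ n

/-- the numerator of `1/m + 1/(m+1) + … + 1/(m+d-1)` -/
def QQ (d m : ℕ) : ℤ := ∑ k ∈ range d, ∏ j ∈ (range d).erase k, ((m : ℤ) + j)

lemma fact_asc (m d : ℕ) (hm : 1 ≤ m) :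
    (((m + d - 1) ! : ℕ) : ℤ) = ((m - 1) ! : ℕ) * ∏ k ∈ range d, ((m : ℤ) + k) := by
  induction d with
  | zero => simp
  | succ d ih =>
    rw [prod_range_succ, ← mul_assoc, ← ih]
    have : m + (d + 1) - 1 = (m + d - 1) + 1 := by omega
    rw [this, Nat.factorial_succ]
    push_cast
    have h2 : ((m + d - 1 : ℕ) : ℤ) + 1 = m + d := by omega
    rw [h2]
    ring

lemma fact_desc (q d : ℕ) (hd : d ≤ q) :
    ((q ! : ℕ) : ℤ) = ((q - d) ! : ℕ) * ∏ k ∈ range d, ((q : ℤ) - k) := by
  induction d with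
  | zero => simp
  | succ d ih =>
    rw [prod_range_succ, ih (by omega)]
    have : q - d = (q - (d + 1)) + 1 := by omega
    rw [this, Nat.factorial_succ]
    push_cast
    have h2 : ((q - (d + 1) : ℕ) : ℤ) + 1 = q - d := by omega
    rw [h2]
    ring

/-- two orders -/
lemma two_orders {p m d : ℕ} (h1 : Ord m p) (h2 : Ord (m + d) p) : (p : ℤ) ∣ QQ d m := by
  obtain ⟨hp, hm, hmp, h1⟩ := h1
  obtain ⟨-, -, hdp, h2⟩ := h2
  have hp0 : (p : ℤ) ≠ 0 := by exact_mod_cast hp.ne_zero
  have hpp : Prime (p : ℤ) := Nat.prime_iff_prime_int.1 hp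
  set A : ℤ := (((m - 1) ! : ℕ) : ℤ) with hA
  set B : ℤ := (((p - (m + d)) ! : ℕ) : ℤ) with hB
  set P : ℤ := ∏ k ∈ range d, ((m : ℤ) + k) with hP
  have e1 : (((m + d - 1) ! : ℕ) : ℤ) = A * P := fact_asc m d hm
  have e2 : (((p - m) ! : ℕ) : ℤ) = B * ((-1) ^ d * ∏ k ∈ range d, ((m : ℤ) + k + p * (-1) * 1)) := by
    have h3 := fact_desc (p - m) d (by omega)
    have h4 : p - m - d = p - (m + d) := by omega
    rw [h4] at h3
    rw [h3]
    congr 1
    have h5 : ((-1 : ℤ)) ^ d = ∏ _k ∈ range d, (-1 : ℤ) := by simp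
    rw [h5, ← prod_mul_distrib]
    apply prod_congr rfl
    intro k _
    rw [Nat.cast_sub hmp]
    ring
  set R : ℤ := ∏ k ∈ range d, ((m : ℤ) + k + p * (-1) * 1) with hR
  rw [e2] at h1
  rw [e1] at h2
  have h3 : (p : ℤ) ^ 2 ∣ A * B * (P - R) := by
    have h4 := dvd_sub h2 (Dvd.dvd.mul_left h1 ((-1 : ℤ) ^ d))
    refine h4.trans (dvd_of_eq ?_)
    have e : ((-1 : ℤ) ^ d) * (-1) ^ d = 1 := by rw [← mul_pow]; simp
    rw [pow_add]
    linear_combination (-A * B * R) * e
  have hcA : IsCoprime ((p : ℤ) ^ 2) A := by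
    apply IsCoprime.pow_left
    rw [hpp.coprime_iff_not_dvd, hA]
    intro h
    have h5 : p ∣ (m - 1) ! := by exact_mod_cast h
    rw [hp.dvd_factorial] at h5
    omega
  have hcB : IsCoprime ((p : ℤ) ^ 2) B := by
    apply IsCoprime.pow_left
    rw [hpp.coprime_iff_not_dvd, hB]
    intro h
    have h5 : p ∣ (p - (m + d)) ! := by exact_mod_cast h
    rw [hp.dvd_factorial] at h5
    omega
  have h4 : (p : ℤ) ^ 2 ∣ P - R := (hcA.mul_right hcB).dvd_of_dvd_mul_left h3
  have h5 := prod_expand (range d) (fun k : ℕ => (m : ℤ) + k) (fun _ => 1) p (-1)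
  have h6 : (p : ℤ) ^ 2 ∣ p * QQ d m := by
    have h7 := dvd_add h4 h5
    refine h7.trans (dvd_of_eq ?_)
    unfold QQ
    rw [hP, hR]
    simp only [one_mul]
    ring
  rw [pow_two] at h6
  exact (mul_dvd_mul_iff_left hp0).1 h6

lemma QQ_pos {d m : ℕ} (hd : 1 ≤ d) (hm : 1 ≤ m) : 0 < QQ d m := by
  unfold QQ
  apply sum_pos
  · intro k _
    apply prod_pos
    intro j _
    positivity
  · exact ⟨0, mem_range.2 (by omega)⟩

/-- the polynomial -/
noncomputable def PP (p d : ℕ) : (ZMod p)[X] := ∏ k ∈ range d, (X + C (k : ZMod p))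

lemma PP_monic (p d : ℕ) [Fact p.Prime] : (PP p d).Monic := monic_prod_of_monic _ _ fun k _ => monic_X_add_C _

lemma PP_deg (p d : ℕ) [Fact p.Prime] : (PP p d).natDegree = d := by
  unfold PP
  rw [natDegree_prod_of_monic _ _ fun k _ => monic_X_add_C _,
    sum_congr rfl fun (k : ℕ) _ => natDegree_X_add_C ((k : ℕ) : ZMod p)]
  simp

lemma PP_deriv (p d m : ℕ) [Fact p.Prime] : (derivative (PP p d)).eval (m : ZMod p) = ((QQ d m : ℤ) : ZMod p) := by
  unfold PP QQ
  rw [derivative_prod_finset]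
  simp only [derivative_add, derivative_X, derivative_C, add_zero, mul_one, eval_finsetSum, eval_prod,
    eval_add, eval_X, eval_C]
  push_cast
  rfl

/-- the number of roots -/
lemma roots_card {p d N : ℕ} (hp : p.Prime) (hN : N ≤ p) (hd : 1 ≤ d) :
    ((Icc 1 N).filter (fun m => m + d ≤ N ∧ (p : ℤ) ∣ QQ d m)).card ≤ d - 1 := by
  have : Fact p.Prime := ⟨hp⟩
  by_cases hdp : p ≤ d
  · have : (Icc 1 N).filter (fun m => m + d ≤ N ∧ (p : ℤ) ∣ QQ d m) = ∅ := by
      apply filter_false_of_mem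
      intro m hm h
      rw [mem_Icc] at hm
      omega
    rw [this]
    simp
  · push Not at hdp
    set F := derivative (PP p d) with hF
    have hdeg : F.natDegree ≤ d - 1 := by
      have := natDegree_derivative_le (PP p d)
      rwa [PP_deg] at this
    have hF0 : F ≠ 0 := by
      intro h
      have h1 : F.coeff (d - 1) = (PP p d).coeff d * d := by
        rw [hF, coeff_derivative]
        have : d - 1 + 1 = d := by omega
        rw [this]
        congr 1
        rw [← Nat.cast_add_one, this]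
      have h2 : (PP p d).coeff d = 1 := by
        have := PP_monic p d
        rw [Monic, leadingCoeff, PP_deg] at this
        exact this
      rw [h2, one_mul, h, coeff_zero] at h1
      have h3 := (ZMod.natCast_eq_zero_iff d p).1 h1.symm
      have := Nat.le_of_dvd (by omega) h3
      omega
    have hcard : F.roots.toFinset.card ≤ d - 1 :=
      (Multiset.toFinset_card_le _).trans ((card_roots' F).trans hdeg)
    refine le_trans ?_ hcard
    refine card_le_card_of_injOn (fun m : ℕ => (m : ZMod p)) ?_ ?_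
    · intro m hm
      rw [mem_coe, mem_filter] at hm
      rw [mem_coe, Multiset.mem_toFinset, mem_roots hF0, IsRoot, hF, PP_deriv]
      exact (ZMod.intCast_zmod_eq_zero_iff_dvd _ p).2 hm.2.2
    · intro m hm n hn h
      rw [mem_coe, mem_filter, mem_Icc] at hm hn
      have h1 := (ZMod.natCast_eq_natCast_iff' m n p).1 h
      have h2 : m < p := by omega
      have h3 : n < p := by omega
      rwa [Nat.mod_eq_of_lt h2, Nat.mod_eq_of_lt h3] at h1

/-- the gap argument -/
lemma gap_bound {p N : ℕ} (hp : p.Prime) (hN : N ≤ p) (D : ℕ) :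
    ((Icc 1 N).filter (fun n => Ord n p)).card ≤ ∑ d ∈ Icc 1 D, (d - 1) + (N / (D + 1) + 1) := by
  set A := (Icc 1 N).filter (fun n => Ord n p) with hA
  rw [← card_filter_add_card_filter_not (s := A) (fun m => ∃ d ∈ Icc 1 D, m + d ∈ A)]
  apply add_le_add
  · have h1 : A.filter (fun m => ∃ d ∈ Icc 1 D, m + d ∈ A) ⊆
        (Icc 1 D).biUnion (fun d => (Icc 1 N).filter (fun m => m + d ≤ N ∧ (p : ℤ) ∣ QQ d m)) := by
      intro m hm
      rw [mem_filter] at hm
      obtain ⟨hmA, d, hd, hmd⟩ := hm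
      rw [mem_biUnion]
      refine ⟨d, hd, ?_⟩
      rw [hA, mem_filter, mem_Icc] at hmA hmd
      rw [mem_filter, mem_Icc]
      exact ⟨hmA.1, hmd.1.2, two_orders hmA.2 hmd.2⟩
    refine (card_le_card h1).trans (card_biUnion_le.trans (sum_le_sum fun d hd => ?_))
    exact roots_card hp hN (mem_Icc.1 hd).1
  · have h2 : (A.filter (fun m => ¬ ∃ d ∈ Icc 1 D, m + d ∈ A)).card ≤ (range (N / (D + 1) + 1)).card := by
      refine card_le_card_of_injOn (fun m => m / (D + 1)) ?_ ?_
      · intro m hm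
        rw [mem_coe, mem_filter, hA, mem_filter, mem_Icc] at hm
        rw [mem_coe, mem_range]
        have := Nat.div_le_div_right (c := D + 1) hm.1.1.2
        exact Nat.lt_succ_of_le this
      · have key : ∀ m n : ℕ, m < n → m ∈ A.filter (fun m => ¬ ∃ d ∈ Icc 1 D, m + d ∈ A) →
            n ∈ A.filter (fun m => ¬ ∃ d ∈ Icc 1 D, m + d ∈ A) → m / (D + 1) ≠ n / (D + 1) := by
          intro m n hmn hm hn h
          rw [mem_filter] at hm hn
          apply hm.2
          refine ⟨n - m, ?_, ?_⟩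
          · rw [mem_Icc]
            refine ⟨by omega, ?_⟩
            have h3 := Nat.div_add_mod m (D + 1)
            have h4 := Nat.div_add_mod n (D + 1)
            have h5 := Nat.mod_lt n (Nat.succ_pos D)
            have h6 := Nat.mod_lt m (Nat.succ_pos D)
            rw [h] at h3
            rw [Nat.succ_eq_add_one] at h5 h6
            omega
          · have : m + (n - m) = n := by omega
            rw [this]
            exact hn.1
        intro m hm n hn h
        rw [mem_coe] at hm hn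
        rcases lt_trichotomy m n with h' | h' | h'
        · exact absurd h (key m n h' hm hn)
        · exact h'
        · exact absurd h.symm (key n m h' hn hm)
    rwa [card_range] at h2

lemma sum_gap (D : ℕ) : ((∑ d ∈ Icc 1 D, (d - 1) : ℕ) : ℝ) ≤ (D : ℝ) ^ 2 / 2 := by
  induction D with
  | zero => simp
  | succ D ih =>
    rw [sum_Icc_succ_top (by omega)]
    push_cast
    push_cast at ih
    nlinarith

/-- **the number of orders** -/
theorem orders {p : ℕ} (hp : p.Prime) (N : ℕ) :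
    (((Icc 1 N).filter (fun n => Ord n p)).card : ℝ) ≤ 3 / 2 * (N : ℝ) ^ ((2 : ℝ) / 3) + 1 := by
  wlog hN : N ≤ p generalizing N
  · push Not at hN
    have h1 := this p le_rfl
    have h2 : (Icc 1 N).filter (fun n => Ord n p) = (Icc 1 p).filter (fun n => Ord n p) := by
      ext n
      rw [mem_filter, mem_filter, mem_Icc, mem_Icc]
      constructor
      · rintro ⟨h, h'⟩
        exact ⟨⟨h.1, h'.2.2.1⟩, h'⟩
      · rintro ⟨h, h'⟩
        exact ⟨⟨h.1, by omega⟩, h'⟩
    rw [h2]
    have h3 : (p : ℝ) ^ ((2 : ℝ) / 3) ≤ (N : ℝ) ^ ((2 : ℝ) / 3) := by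
      apply Real.rpow_le_rpow (Nat.cast_nonneg _) (by exact_mod_cast hN.le) (by norm_num)
    linarith
  · have hN0 : (0 : ℝ) ≤ N := Nat.cast_nonneg N
    set t : ℝ := (N : ℝ) ^ ((1 : ℝ) / 3) with ht
    have ht0 : 0 ≤ t := Real.rpow_nonneg hN0 _
    have ht3 : t ^ 3 = N := by
      rw [ht, ← Real.rpow_natCast, ← Real.rpow_mul hN0]
      norm_num
    have ht2 : t ^ 2 = (N : ℝ) ^ ((2 : ℝ) / 3) := by
      rw [ht, ← Real.rpow_natCast, ← Real.rpow_mul hN0]
      norm_num
    set D := ⌊t⌋₊ with hD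
    have hD1 : (D : ℝ) ≤ t := Nat.floor_le ht0
    have hD2 : t < D + 1 := Nat.lt_floor_add_one t
    have h1 := gap_bound hp hN D
    have h2 := sum_gap D
    have h3 : ((N / (D + 1) : ℕ) : ℝ) ≤ t ^ 2 := by
      have h4 : ((N / (D + 1) : ℕ) : ℝ) ≤ (N : ℝ) / ((D + 1 : ℕ) : ℝ) := Nat.cast_div_le
      refine h4.trans ?_
      rw [div_le_iff₀ (by positivity), ← ht3]
      push_cast
      nlinarith [pow_nonneg ht0 2]
    have h5 : (((Icc 1 N).filter (fun n => Ord n p)).card : ℝ) ≤
        ((∑ d ∈ Icc 1 D, (d - 1) : ℕ) : ℝ) + (((N / (D + 1) : ℕ) : ℝ) + 1) := by exact_mod_cast h1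
    rw [← ht2]
    have h6 : (D : ℝ) ^ 2 ≤ t ^ 2 := pow_le_pow_left₀ (Nat.cast_nonneg _) hD1 2
    linarith

/-- two different orders have finitely many common Wilson primes -/
theorem finite_common {m n : ℕ} (hmn : m < n) : {p : ℕ | Ord m p ∧ Ord n p}.Finite := by
  by_cases hm : 1 ≤ m
  · refine (Set.finite_Iic (QQ (n - m) m).toNat).subset ?_
    rintro p ⟨h1, h2⟩
    have e : n = m + (n - m) := by omega
    rw [e] at h2
    have h3 := two_orders h1 h2
    have h4 := QQ_pos (d := n - m) (m := m) (by omega) hm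
    have h5 := Int.le_of_dvd h4 h3
    rw [Set.mem_Iic]
    omega
  · refine Set.finite_empty.subset ?_
    rintro p ⟨h1, -⟩
    exact hm h1.2.1

/-- the number of Wilson primes of order `n` up to `x` -/
noncomputable def piW (n x : ℕ) : ℕ := ((Icc 1 x).filter (fun p => Ord n p)).card

lemma swap (N x : ℕ) : ∑ n ∈ Icc 1 N, piW n x =
    ∑ p ∈ (Icc 1 x).filter Nat.Prime, ((Icc 1 N).filter (fun n => Ord n p)).card := by
  unfold piW
  simp only [card_filter]
  rw [sum_comm, sum_filter]
  apply sum_congr rfl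
  intro p _
  split_ifs with h
  · rfl
  · apply sum_eq_zero
    intro n _
    rw [if_neg fun h' => h h'.1]

/-- **the average over the orders** -/
theorem average (N x : ℕ) : ((∑ n ∈ Icc 1 N, piW n x : ℕ) : ℝ) ≤
    (3 / 2 * (N : ℝ) ^ ((2 : ℝ) / 3) + 1) * Nat.primeCounting x := by
  rw [swap]
  push_cast
  have h1 : ∑ p ∈ (Icc 1 x).filter Nat.Prime, (((Icc 1 N).filter (fun n => Ord n p)).card : ℝ) ≤
      ∑ _p ∈ (Icc 1 x).filter Nat.Prime, (3 / 2 * (N : ℝ) ^ ((2 : ℝ) / 3) + 1) := by
    apply sum_le_sum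
    intro p hp
    exact orders (mem_filter.1 hp).2 N
  refine h1.trans (le_of_eq ?_)
  rw [sum_const, nsmul_eq_mul, mul_comm]
  congr 2
  rw [Nat.primeCounting, Nat.primeCounting', Nat.count_eq_card_filter_range]
  congr 1
  ext p
  rw [mem_filter, mem_filter, mem_Icc, mem_range]
  constructor
  · rintro ⟨h, h'⟩; exact ⟨by omega, h'⟩
  · rintro ⟨h, h'⟩; exact ⟨⟨h'.one_le, by omega⟩, h'⟩

/-- for a fixed range of orders -/
theorem average_fixed (N : ℕ) : ∃ C : ℕ, ∀ x : ℕ,
    ∑ n ∈ Icc 1 N, piW n x ≤ Nat.primeCounting x + C := by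
  -- the exceptional primes
  have hfin : (⋃ m ∈ Icc 1 N, ⋃ n ∈ Icc 1 N, {p : ℕ | m < n ∧ Ord m p ∧ Ord n p}).Finite := by
    apply Set.Finite.biUnion (Finset.finite_toSet _)
    intro m _
    apply Set.Finite.biUnion (Finset.finite_toSet _)
    intro n _
    by_cases h : m < n
    · exact (finite_common h).subset fun p hp => hp.2
    · exact Set.finite_empty.subset fun p hp => h hp.1
  set E := hfin.toFinset with hE
  refine ⟨E.card * N, fun x => ?_⟩
  rw [swap]
  have h1 : ∀ p ∈ (Icc 1 x).filter Nat.Prime, ((Icc 1 N).filter (fun n => Ord n p)).card ≤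
      1 + if p ∈ E then N else 0 := by
    intro p _
    split_ifs with h
    · refine (card_filter_le _ _).trans ?_
      simp
    · rw [add_zero, card_le_one]
      intro m hm n hn
      rw [mem_filter] at hm hn
      by_contra hne
      apply h
      rw [hE, Set.Finite.mem_toFinset]
      simp only [Set.mem_iUnion]
      rcases lt_or_gt_of_ne hne with h' | h'
      · exact ⟨m, hm.1, n, hn.1, h', hm.2, hn.2⟩
      · exact ⟨n, hn.1, m, hm.1, h', hn.2, hm.2⟩
  refine (sum_le_sum h1).trans ?_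
  rw [sum_add_distrib]
  apply add_le_add
  · rw [sum_const, smul_eq_mul, mul_one, Nat.primeCounting, Nat.primeCounting', Nat.count_eq_card_filter_range]
    apply card_le_card
    intro p hp
    rw [mem_filter, mem_Icc] at hp
    rw [mem_filter, mem_range]
    exact ⟨by omega, hp.2⟩
  · rw [← sum_filter]
    rw [sum_const, smul_eq_mul]
    apply Nat.mul_le_mul_right
    apply card_le_card
    intro p hp
    exact (mem_filter.1 hp).2

end Pool.Agent.Helper92K9.WI
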