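import Pool.Agent.Helper92K9.WI.Var
import Pool.Agent.Helper92K9.MP.Inj
import Pool.Agent.Helper92K9.MP.Bon

set_option autoImplicit false

/-!
# The Poisson law
-/

namespace Pool.Agent.Helper92K9.WI

open Finset
open scoped Classical
open Pool.Agent.Helper92K9.MP (sum_inj card_inj cf bonferroni pois_bound)

lemma per_mul (b : ℤ) (p : ℕ) (k a : ℕ) :
    IsWilson b ((a + p ^ 2 * k : ℕ) : ℤ) p ↔ IsWilson b (a : ℤ) p := by
  have h := isWilson_periodic b p a k
  push_cast
  exact h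

/-- **the Chinese remainder theorem for a finite set of primes** -/
lemma crt_all (b : ℤ) (T : Finset ℕ) (hT : ∀ p ∈ T, p.Prime ∧ p ≠ 2) :
    (∀ a k : ℕ, (∀ p ∈ T, IsWilson b ((a + (∏ p ∈ T, p ^ 2) * k : ℕ) : ℤ) p) ↔
      (∀ p ∈ T, IsWilson b (a : ℤ) p)) ∧
    ((range (∏ p ∈ T, p ^ 2)).filter (fun a : ℕ => ∀ p ∈ T, IsWilson b (a : ℤ) p)).card =
      ∏ p ∈ T, (p - 1) := by
  induction T using Finset.induction_on with
  | empty => simp
  | insert q T hq ih =>
    have ih' := ih fun p hp => hT p (mem_insert_of_mem hp)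
    have hq' := hT q (mem_insert_self _ _)
    have hper : ∀ a k : ℕ, (∀ p ∈ insert q T,
        IsWilson b ((a + (∏ p ∈ insert q T, p ^ 2) * k : ℕ) : ℤ) p) ↔
        (∀ p ∈ insert q T, IsWilson b (a : ℤ) p) := by
      intro a k
      rw [prod_insert hq, forall_mem_insert, forall_mem_insert]
      have h1 := per_mul b q ((∏ p ∈ T, p ^ 2) * k) a
      rw [← mul_assoc] at h1
      have h2 := ih'.1 a (q ^ 2 * k)
      rw [← mul_assoc, mul_comm (∏ p ∈ T, p ^ 2) (q ^ 2)] at h2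
      rw [h1, h2]
    refine ⟨hper, ?_⟩
    rw [prod_insert hq, prod_insert hq, ← card_local b hq'.1 hq'.2, ← ih'.2]
    have hco : Nat.Coprime (q ^ 2) (∏ p ∈ T, p ^ 2) := by
      apply Nat.Coprime.prod_right
      intro p hp
      apply Nat.Coprime.pow
      exact (Nat.coprime_primes hq'.1 (hT p (mem_insert_of_mem hp)).1).2 fun h => hq (h ▸ hp)
    have hM : 0 < ∏ p ∈ T, p ^ 2 := prod_pos fun p hp =>
      pow_pos (hT p (mem_insert_of_mem hp)).1.pos 2
    rw [← card_crt (fun a : ℕ => IsWilson b (a : ℤ) q) (fun a : ℕ => ∀ p ∈ T, IsWilson b (a : ℤ) p)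
      (pow_pos hq'.1.pos 2) hM hco (fun a => per b q a) (fun a => by
        have := ih'.1 a 1
        rw [mul_one] at this
        exact this)]
    congr 1
    apply filter_congr
    intro a _
    rw [forall_mem_insert]

lemma multi (b : ℤ) (T : Finset ℕ) (hT : ∀ p ∈ T, p.Prime ∧ p ≠ 2) (X : ℕ) :
    |∑ a ∈ Icc 1 X, ∏ p ∈ T, ind b p a - (∏ p ∈ T, gg p) * X| ≤ ∏ p ∈ T, (p : ℝ) := by
  have h1 := crt_all b T hT
  have hM : 0 < ∏ p ∈ T, p ^ 2 := prod_pos fun p hp => pow_pos (hT p hp).1.pos 2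
  have h2 := count_bound (fun a : ℕ => ∀ p ∈ T, IsWilson b (a : ℤ) p) hM
    (fun a => by
      have := h1.1 a 1
      rw [mul_one] at this
      exact this) h1.2 X
  have e1 : ∑ a ∈ Icc 1 X, ∏ p ∈ T, ind b p a =
      (((Icc 1 X).filter (fun a : ℕ => ∀ p ∈ T, IsWilson b (a : ℤ) p)).card : ℝ) := by
    rw [← sum_boole]
    apply sum_congr rfl
    intro a _
    unfold ind
    rw [prod_boole]
  have e2 : ((∏ p ∈ T, (p - 1) : ℕ) : ℝ) * X / ((∏ p ∈ T, p ^ 2 : ℕ) : ℝ) = (∏ p ∈ T, gg p) * X := by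
    have : ∏ p ∈ T, gg p = ((∏ p ∈ T, (p - 1) : ℕ) : ℝ) / ((∏ p ∈ T, p ^ 2 : ℕ) : ℝ) := by
      push_cast
      rw [← prod_div_distrib]
      apply prod_congr rfl
      intro p hp
      unfold gg
      rw [Nat.cast_sub (hT p hp).1.one_le]
      push_cast
      rfl
    rw [this]
    ring
  rw [e1, ← e2]
  refine h2.trans ?_
  push_cast
  apply prod_le_prod
  · intro p _
    exact Nat.cast_nonneg _
  · intro p _
    exact_mod_cast Nat.sub_le p 1

/-- the number of Wilson primes in `S` -/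
noncomputable def NS (b : ℤ) (S : Finset ℕ) (a : ℕ) : ℕ := (S.filter (fun p => IsWilson b (a : ℤ) p)).card

lemma desc_eq (b : ℤ) (S : Finset ℕ) (a k : ℕ) : ((NS b S a).descFactorial k : ℝ) =
    ∑ q ∈ (Fintype.piFinset fun _ : Fin k => S).filter (fun q => Function.Injective q),
      ∏ l, ind b (q l) a := by
  rw [NS, ← card_inj]
  have h1 : ∀ q : Fin k → ℕ, ∏ l, ind b (q l) a = if ∀ l ∈ (univ : Finset (Fin k)), IsWilson b (a : ℤ) (q l) then 1 else 0 := by
    intro q
    unfold ind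
    rw [prod_boole]
    congr
  simp only [h1]
  rw [sum_boole, filter_filter]
  congr 2
  ext q
  simp only [mem_filter, Fintype.mem_piFinset, mem_univ, forall_true_left]
  constructor
  · rintro ⟨h, h2⟩
    exact ⟨fun l => (h l).1, h2, fun l => (h l).2⟩
  · rintro ⟨h, h2, h3⟩
    exact ⟨fun l => ⟨h l, h3 l⟩, h2⟩

/-- **the factorial moments** -/
lemma fact_moment (b : ℤ) (S : Finset ℕ) {u v : ℕ} (hu : 3 ≤ u) (hS : ∀ p ∈ S, p.Prime ∧ u ≤ p ∧ p ≤ v)
    (k X : ℕ) {B : ℝ} (hB1 : 1 ≤ B) (hB : ∑ p ∈ S, gg p ≤ B) :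
    |∑ a ∈ Icc 1 X, ((NS b S a).descFactorial k : ℝ) - (∑ p ∈ S, gg p) ^ k * X| ≤
      (v : ℝ) ^ (2 * k) + (k : ℝ) ^ 2 * (1 / u * (B ^ k * B)) * X := by
  have hu' : (3 : ℝ) ≤ u := by exact_mod_cast hu
  have hX0 : (0 : ℝ) ≤ X := Nat.cast_nonneg X
  have hS2 : ∀ p ∈ S, p.Prime ∧ p ≠ 2 := fun p hp => ⟨(hS p hp).1, by have := (hS p hp).2.1; omega⟩
  set Q := (Fintype.piFinset fun _ : Fin k => S).filter (fun q => Function.Injective q) with hQ
  have h1 : ∑ a ∈ Icc 1 X, ((NS b S a).descFactorial k : ℝ) =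
      ∑ q ∈ Q, ∑ a ∈ Icc 1 X, ∏ l, ind b (q l) a := by
    rw [sum_comm]
    apply sum_congr rfl
    intro a _
    rw [desc_eq]
  have h2 : ∀ q ∈ Q, |∑ a ∈ Icc 1 X, ∏ l, ind b (q l) a - (∏ l, gg (q l)) * X| ≤ (v : ℝ) ^ k := by
    intro q hq
    rw [hQ, mem_filter, Fintype.mem_piFinset] at hq
    have h3 := multi b (univ.image q) (fun p hp => by
      rw [mem_image] at hp
      obtain ⟨l, _, rfl⟩ := hp
      exact hS2 _ (hq.1 l)) X
    have e : ∀ f : ℕ → ℝ, ∏ p ∈ univ.image q, f p = ∏ l, f (q l) := fun f =>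
      prod_image fun i _ j _ h => hq.2 h
    simp only [e] at h3
    refine h3.trans ?_
    calc ∏ l : Fin k, ((q l : ℕ) : ℝ) ≤ ∏ _l : Fin k, (v : ℝ) := by
          apply prod_le_prod
          · intro l _; exact Nat.cast_nonneg _
          · intro l _; exact_mod_cast (hS _ (hq.1 l)).2.2
      _ = (v : ℝ) ^ k := by simp
  have hcS : S.card ≤ v := by
    have : S ⊆ Icc 1 v := fun p hp => mem_Icc.2 ⟨(hS p hp).1.one_le, (hS p hp).2.2⟩
    have := card_le_card this
    simpa using this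
  have hcQ : (Q.card : ℝ) ≤ (v : ℝ) ^ k := by
    have : Q.card ≤ v ^ k := by
      refine (card_filter_le _ _).trans ?_
      rw [Fintype.card_piFinset]
      simp only [prod_const, card_univ, Fintype.card_fin]
      exact Nat.pow_le_pow_left hcS k
    exact_mod_cast this
  have h4 : |∑ q ∈ Q, ∑ a ∈ Icc 1 X, ∏ l, ind b (q l) a - (∑ q ∈ Q, ∏ l, gg (q l)) * X| ≤
      (v : ℝ) ^ (2 * k) := by
    rw [sum_mul, ← sum_sub_distrib]
    refine (abs_sum_le_sum_abs _ _).trans ?_
    refine (sum_le_sum h2).trans ?_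
    rw [sum_const, nsmul_eq_mul, two_mul, pow_add]
    exact mul_le_mul_of_nonneg_right hcQ (by positivity)
  have h5 : |∑ q ∈ Q, ∏ l, gg (q l) - (∑ p ∈ S, gg p) ^ k| ≤ (k : ℝ) ^ 2 * (1 / u * (B ^ k * B)) := by
    cases k with
    | zero =>
      have hQ1 : ∑ q ∈ Q, ∏ l, gg (q l) = 1 := by
        have : Q = {fun i => i.elim0} := by
          rw [hQ]
          ext q
          simp only [mem_filter, Fintype.mem_piFinset, mem_singleton]
          constructor
          · intro _; funext i; exact i.elim0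
          · intro _; exact ⟨fun i => i.elim0, fun i => i.elim0⟩
        rw [this]
        simp
      rw [hQ1]
      simp
    | succ n =>
      -- a nonnegative version of the density
      set f : ℕ → ℝ := fun p => if 1 ≤ p then gg p else 0 with hf
      have hf0 : ∀ p, 0 ≤ f p := by
        intro p
        simp only [hf]
        split_ifs with h
        · exact gg_nonneg h
        · exact le_rfl
      have hfS : ∀ p ∈ S, f p = gg p := fun p hp => by simp only [hf]; rw [if_pos (hS p hp).1.one_le]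
      have hsum : ∑ p ∈ S, f p = ∑ p ∈ S, gg p := sum_congr rfl hfS
      have h6 := sum_inj (n := n) (fun _ => S) hf0 (ε := 1 / u) (B := B) (by positivity) hB1
        (fun l _ p hp => by
          rw [hfS p hp]
          unfold gg
          have hp1 : (u : ℝ) ≤ p := by exact_mod_cast (hS p hp).2.1
          have hp0 : (0 : ℝ) < p := by linarith
          rw [div_le_div_iff₀ (by positivity) (by linarith)]
          nlinarith)
        (fun l _ => by rw [hsum]; exact hB)
      have e1 : ∑ q ∈ Q, ∏ l, gg (q l) = ∑ q ∈ Q, ∏ l, f (q l) := by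
        apply sum_congr rfl
        intro q hq
        apply prod_congr rfl
        intro l _
        rw [hQ, mem_filter, Fintype.mem_piFinset] at hq
        exact (hfS _ (hq.1 l)).symm
      have e2 : ∏ _l : Fin (n + 1), ∑ p ∈ S, f p = (∑ p ∈ S, gg p) ^ (n + 1) := by
        rw [hsum]; simp
      rw [e2] at h6
      rw [e1]
      refine h6.trans ?_
      push_cast
      rw [hsum]
      have hB0 : 0 ≤ B ^ (n + 1) := by positivity
      gcongr
  have h7 : ∑ a ∈ Icc 1 X, ((NS b S a).descFactorial k : ℝ) - (∑ p ∈ S, gg p) ^ k * X =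
      (∑ q ∈ Q, ∑ a ∈ Icc 1 X, ∏ l, ind b (q l) a - (∑ q ∈ Q, ∏ l, gg (q l)) * X) +
      (∑ q ∈ Q, ∏ l, gg (q l) - (∑ p ∈ S, gg p) ^ k) * X := by
    rw [h1]; ring
  rw [h7]
  refine (abs_add_le _ _).trans (add_le_add h4 ?_)
  rw [abs_mul, abs_of_nonneg hX0]
  exact mul_le_mul_of_nonneg_right h5 hX0

end Pool.Agent.Helper92K9.WI
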