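import Pool.Agent.Helper92K9.WI.Cnt
import Pool.Agent.Helper601.Mertens

set_option autoImplicit false

/-!
# The second moment
-/

namespace Pool.Agent.Helper92K9.WI

open Finset
open scoped Classical

/-- the odd primes up to `y` -/
def Od (y : ℕ) : Finset ℕ := (Icc 1 y).filter (fun p => p.Prime ∧ p ≠ 2)

/-- the indicator -/
noncomputable def ind (b : ℤ) (p a : ℕ) : ℝ := if IsWilson b (a : ℤ) p then 1 else 0

/-- the sum of the local densities -/
noncomputable def lam (y : ℕ) : ℝ := ∑ p ∈ Od y, gg p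

lemma gg_nonneg {p : ℕ} (hp : 1 ≤ p) : 0 ≤ gg p := by
  unfold gg
  have : (1 : ℝ) ≤ p := by exact_mod_cast hp
  apply div_nonneg
  · linarith
  · positivity

lemma mem_Od {y p : ℕ} : p ∈ Od y ↔ (1 ≤ p ∧ p ≤ y) ∧ p.Prime ∧ p ≠ 2 := by
  rw [Od, mem_filter, mem_Icc]

lemma lam_nonneg (y : ℕ) : 0 ≤ lam y := sum_nonneg fun p hp => gg_nonneg (mem_Od.1 hp).1.1

lemma sum_ind (b : ℤ) (p X : ℕ) : ∑ a ∈ Icc 1 X, ind b p a =
    (((Icc 1 X).filter (fun a : ℕ => IsWilson b (a : ℤ) p)).card : ℝ) := by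
  unfold ind
  rw [sum_boole]

lemma sum_ind_mul (b : ℤ) (p q X : ℕ) : ∑ a ∈ Icc 1 X, ind b p a * ind b q a =
    (((Icc 1 X).filter (fun a : ℕ => IsWilson b (a : ℤ) p ∧ IsWilson b (a : ℤ) q)).card : ℝ) := by
  rw [← sum_boole]
  apply sum_congr rfl
  intro a _
  unfold ind
  by_cases h1 : IsWilson b (a : ℤ) p <;> by_cases h2 : IsWilson b (a : ℤ) q <;> simp [h1, h2]

/-- the sum of the odd primes up to `y` -/
noncomputable def TT (y : ℕ) : ℝ := ∑ p ∈ Od y, (p : ℝ)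

lemma TT_nonneg (y : ℕ) : 0 ≤ TT y := sum_nonneg fun p _ => Nat.cast_nonneg p

lemma TT_le (y : ℕ) : TT y ≤ (y : ℝ) ^ 2 := by
  unfold TT
  have h1 : ∑ p ∈ Od y, (p : ℝ) ≤ ∑ _p ∈ Od y, (y : ℝ) := by
    apply sum_le_sum
    intro p hp
    exact_mod_cast (mem_Od.1 hp).1.2
  refine h1.trans ?_
  rw [sum_const, nsmul_eq_mul, pow_two]
  apply mul_le_mul_of_nonneg_right _ (Nat.cast_nonneg y)
  have : (Od y).card ≤ y := by
    refine (card_filter_le _ _).trans ?_
    simp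
  exact_mod_cast this

/-- **the second moment around `lam y`** -/
theorem second (b : ℤ) {X y : ℕ} (hy : 1 ≤ y) (hX : y ^ 4 ≤ X) :
    ∑ a ∈ Icc 1 X, (∑ p ∈ Od y, ind b p a - lam y) ^ 2 ≤ (3 * lam y + 2) * X := by
  have hX' : (y : ℝ) ^ 4 ≤ X := by exact_mod_cast hX
  have hy' : (1 : ℝ) ≤ y := by exact_mod_cast hy
  set L := lam y with hL
  have hL0 : 0 ≤ L := lam_nonneg y
  have e1 : ∑ a ∈ Icc 1 X, (∑ p ∈ Od y, ind b p a - L) ^ 2 =
      ∑ p ∈ Od y, ∑ q ∈ Od y, ∑ a ∈ Icc 1 X, ind b p a * ind b q a -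
        2 * L * ∑ p ∈ Od y, ∑ a ∈ Icc 1 X, ind b p a + L ^ 2 * X := by
    have h1 : ∀ a ∈ Icc 1 X, (∑ p ∈ Od y, ind b p a - L) ^ 2 =
        ∑ p ∈ Od y, ∑ q ∈ Od y, ind b p a * ind b q a - 2 * L * ∑ p ∈ Od y, ind b p a + L ^ 2 := by
      intro a _
      rw [sub_sq, pow_two, sum_mul_sum]
      ring
    rw [sum_congr rfl h1, sum_add_distrib, sum_sub_distrib, ← mul_sum]
    congr 1
    · congr 1
      · rw [sum_comm]
        apply sum_congr rfl
        intro p _
        rw [sum_comm]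
      · congr 1
        rw [sum_comm]
    · simp [mul_comm]
  have e2 : ∑ p ∈ Od y, ∑ q ∈ Od y, ∑ a ∈ Icc 1 X, ind b p a * ind b q a ≤
      ∑ p ∈ Od y, ∑ q ∈ Od y, ((gg p * gg q * X + p * q) + if p = q then gg p * X + p else 0) := by
    apply sum_le_sum
    intro p hp
    apply sum_le_sum
    intro q hq
    have hp' := (mem_Od.1 hp).2
    have hq' := (mem_Od.1 hq).2
    have hX0 : (0 : ℝ) ≤ X := Nat.cast_nonneg X
    by_cases h : p = q
    · subst h
      rw [if_pos rfl]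
      have h2 : ∑ a ∈ Icc 1 X, ind b p a * ind b p a = ∑ a ∈ Icc 1 X, ind b p a := by
        apply sum_congr rfl
        intro a _
        unfold ind
        split_ifs <;> simp
      rw [h2, sum_ind]
      have h3 := (abs_le.1 (single b hp'.1 hp'.2 X)).2
      have hgp := gg_nonneg (mem_Od.1 hp).1.1
      have h4 : 0 ≤ gg p * gg p * X := mul_nonneg (mul_nonneg hgp hgp) hX0
      have h5 : (0 : ℝ) ≤ (p : ℝ) * p := by positivity
      linarith
    · rw [if_neg h, sum_ind_mul, add_zero]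
      have h3 := (abs_le.1 (double b hp'.1 hp'.2 hq'.1 hq'.2 h X)).2
      linarith
  have e3 : ∑ p ∈ Od y, ∑ q ∈ Od y, ((gg p * gg q * X + (p : ℝ) * q) +
      if p = q then gg p * X + p else 0) = L ^ 2 * X + TT y ^ 2 + (L * X + TT y) := by
    have h1 : ∀ p ∈ Od y, ∑ q ∈ Od y, ((gg p * gg q * X + (p : ℝ) * q) +
        if p = q then gg p * X + p else 0) = gg p * L * X + p * TT y + (gg p * X + p) := by
      intro p hp
      rw [sum_add_distrib, sum_add_distrib, sum_ite_eq, if_pos hp]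
      congr 2
      · rw [hL, lam, mul_sum, sum_mul]
      · rw [TT, mul_sum]
    rw [sum_congr rfl h1, sum_add_distrib, sum_add_distrib, sum_add_distrib]
    congr 1
    · congr 1
      · rw [← sum_mul, ← sum_mul]
        change L * L * X = L ^ 2 * X
        ring
      · rw [← sum_mul]
        change TT y * TT y = TT y ^ 2
        ring
    · congr 1
      rw [← sum_mul]
      rfl
  have e4 : L * X - TT y ≤ ∑ p ∈ Od y, ∑ a ∈ Icc 1 X, ind b p a := by
    have h1 : L * X - TT y = ∑ p ∈ Od y, (gg p * X - p) := by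
      rw [sum_sub_distrib, ← sum_mul]
      rfl
    rw [h1]
    apply sum_le_sum
    intro p hp
    rw [sum_ind]
    have hp' := (mem_Od.1 hp).2
    have h3 := (abs_le.1 (single b hp'.1 hp'.2 X)).1
    linarith
  have hT := TT_le y
  have hT0 := TT_nonneg y
  have hT2 : TT y ^ 2 ≤ X := by
    have : TT y ^ 2 ≤ ((y : ℝ) ^ 2) ^ 2 := pow_le_pow_left₀ hT0 hT 2
    nlinarith
  have hT1 : TT y ≤ X := by
    have h6 : (y : ℝ) ^ 2 ≤ (y : ℝ) ^ 4 := pow_le_pow_right₀ hy' (by norm_num)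
    linarith
  rw [e1]
  have h7 : 2 * L * (L * X - TT y) ≤ 2 * L * ∑ p ∈ Od y, ∑ a ∈ Icc 1 X, ind b p a :=
    mul_le_mul_of_nonneg_left e4 (by positivity)
  have h8 : L * TT y ≤ L * X := mul_le_mul_of_nonneg_left hT1 hL0
  nlinarith [e2, e3]

/-- `lam y = log log y + O(1)` -/
theorem lam_est : ∃ C : ℝ, 0 ≤ C ∧ ∀ y : ℕ, 3 ≤ y → |lam y - Real.log (Real.log y)| ≤ C := by
  obtain ⟨C, hC⟩ := Pool.Agent.Helper601.Mertens.mertens_inv
  have hC0 : 0 ≤ C := (abs_nonneg _).trans (hC 3 le_rfl)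
  have hs : Summable (fun n : ℕ => 1 / (n : ℝ) ^ 2) := Real.summable_one_div_nat_pow.2 (by norm_num)
  set S := ∑' n : ℕ, 1 / (n : ℝ) ^ 2 with hS
  have hS0 : 0 ≤ S := tsum_nonneg fun n => by positivity
  refine ⟨C + 1 / 2 + S, by positivity, fun y hy => ?_⟩
  have h1 : (Icc 1 y).filter Nat.Prime = insert 2 (Od y) := by
    ext p
    rw [mem_insert, mem_Od, mem_filter, mem_Icc]
    constructor
    · intro h
      by_cases h2 : p = 2
      · exact Or.inl h2
      · exact Or.inr ⟨h.1, h.2, h2⟩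
    · rintro (h | h)
      · subst h; exact ⟨⟨by omega, by omega⟩, Nat.prime_two⟩
      · exact ⟨h.1, h.2.1⟩
  have h2 : 2 ∉ Od y := fun h => (mem_Od.1 h).2.2 rfl
  have h3 := hC y hy
  rw [h1, sum_insert h2] at h3
  have h4 : lam y = ∑ p ∈ Od y, (1 : ℝ) / p - ∑ p ∈ Od y, 1 / (p : ℝ) ^ 2 := by
    rw [lam, ← sum_sub_distrib]
    apply sum_congr rfl
    intro p hp
    have : (p : ℝ) ≠ 0 := by
      have := (mem_Od.1 hp).1.1
      positivity
    unfold gg
    field_simp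
  have h5 : ∑ p ∈ Od y, 1 / (p : ℝ) ^ 2 ≤ S := hs.sum_le_tsum _ fun n _ => by positivity
  have h6 : 0 ≤ ∑ p ∈ Od y, 1 / (p : ℝ) ^ 2 := sum_nonneg fun n _ => by positivity
  rw [abs_le] at h3 ⊢
  push_cast at h3
  constructor <;> linarith [h3.1, h3.2]

/-- the number of Wilson primes up to `y` of the progression `b + a k` -/
noncomputable def NW (b a : ℤ) (y : ℕ) : ℕ := ((Icc 1 y).filter (fun p => IsWilson b a p)).card

lemma NW_close (b : ℤ) (a y : ℕ) : |(NW b a y : ℝ) - ∑ p ∈ Od y, ind b p a| ≤ 1 := by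
  have h1 : ∑ p ∈ Od y, ind b p a = (((Od y).filter (fun p => IsWilson b (a : ℤ) p)).card : ℝ) := by
    unfold ind
    rw [sum_boole]
  have h2 : (Od y).filter (fun p => IsWilson b (a : ℤ) p) =
      ((Icc 1 y).filter (fun p => IsWilson b (a : ℤ) p)).erase 2 := by
    ext p
    rw [mem_erase, mem_filter, mem_filter, mem_Od, mem_Icc]
    constructor
    · rintro ⟨⟨h, h3, h4⟩, h5⟩
      exact ⟨h4, h, h5⟩
    · rintro ⟨h4, h, h5⟩
      exact ⟨⟨h, h5.1, h4⟩, h5⟩
  rw [h1, h2]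
  have h3 := card_erase_le (s := (Icc 1 y).filter (fun p => IsWilson b (a : ℤ) p)) (a := 2)
  have h4 := pred_card_le_card_erase (s := (Icc 1 y).filter (fun p => IsWilson b (a : ℤ) p)) (a := 2)
  unfold NW
  have h5 : ((Icc 1 y).filter (fun p => IsWilson b (a : ℤ) p)).card ≤
      (((Icc 1 y).filter (fun p => IsWilson b (a : ℤ) p)).erase 2).card + 1 := by omega
  have h3' : ((((Icc 1 y).filter (fun p => IsWilson b (a : ℤ) p)).erase 2).card : ℝ) ≤
      (((Icc 1 y).filter (fun p => IsWilson b (a : ℤ) p)).card : ℝ) := by exact_mod_cast h3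
  have h5' : (((Icc 1 y).filter (fun p => IsWilson b (a : ℤ) p)).card : ℝ) ≤
      ((((Icc 1 y).filter (fun p => IsWilson b (a : ℤ) p)).erase 2).card : ℝ) + 1 := by
    exact_mod_cast h5
  rw [abs_le]
  constructor <;> linarith

/-- **the second moment around `log log y`** -/
theorem main : ∃ C : ℝ, 0 < C ∧ ∀ (b : ℤ) (X y : ℕ), 3 ≤ y → y ^ 4 ≤ X →
    ∑ a ∈ Icc 1 X, ((NW b a y : ℝ) - Real.log (Real.log y)) ^ 2 ≤
      C * (Real.log (Real.log y) + 1) * X := by
  obtain ⟨C, hC0, hC⟩ := lam_est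
  refine ⟨6 * C + 10 + 2 * (1 + C) ^ 2, by positivity, fun b X y hy hX => ?_⟩
  set L := Real.log (Real.log y) with hL
  have hX0 : (0 : ℝ) ≤ X := Nat.cast_nonneg X
  have hL0 : 0 ≤ L := by
    have h3 : (3 : ℝ) ≤ y := by exact_mod_cast hy
    have h1 : (1 : ℝ) ≤ Real.log y := by
      rw [Real.le_log_iff_exp_le (by linarith)]
      have := Real.exp_one_lt_d9
      linarith
    exact Real.log_nonneg h1
  have hlam := abs_le.1 (hC y hy)
  have h1 : ∀ a ∈ Icc 1 X, ((NW b a y : ℝ) - L) ^ 2 ≤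
      2 * (∑ p ∈ Od y, ind b p a - lam y) ^ 2 + 2 * (1 + C) ^ 2 := by
    intro a _
    have h2 := abs_le.1 (NW_close b a y)
    set u := ∑ p ∈ Od y, ind b p a - lam y with hu
    set v := (NW b a y : ℝ) - L - u with hv
    have hv1 : |v| ≤ 1 + C := by
      rw [abs_le]
      constructor <;> rw [hv, hu] <;> linarith [hlam.1, hlam.2, h2.1, h2.2]
    have hv2 : v ^ 2 ≤ (1 + C) ^ 2 := by
      rw [← sq_abs v]
      exact pow_le_pow_left₀ (abs_nonneg _) hv1 2
    have h3 : (NW b a y : ℝ) - L = u + v := by rw [hv]; ring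
    rw [h3]
    nlinarith [sq_nonneg (u - v)]
  refine (sum_le_sum h1).trans ?_
  rw [sum_add_distrib, ← mul_sum, sum_const, Nat.card_Icc, nsmul_eq_mul]
  have h2 := second b (X := X) (y := y) (by omega) hX
  have h3 : (3 * lam y + 2) * X ≤ (3 * (L + C) + 2) * X := by
    apply mul_le_mul_of_nonneg_right _ hX0
    linarith [hlam.2]
  have h4 : ((X + 1 - 1 : ℕ) : ℝ) = X := by simp
  rw [h4]
  have h5 : 0 ≤ L * X := by positivity
  have h6 : 0 ≤ C * (L * X) := by positivity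
  have h7 : 0 ≤ (1 + C) ^ 2 * (L * X) := by positivity
  nlinarith

end Pool.Agent.Helper92K9.WI
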