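import Pool.Agent.Helper92K9.WI.Law

set_option autoImplicit false

/-!
# The windows `(u, u ^ κ]`
-/

namespace Pool.Agent.Helper92K9.WI

open Finset Filter Topology
open scoped Classical

lemma floor_pow_tendsto {κ : ℝ} (hκ : 1 < κ) :
    Tendsto (fun u : ℕ => ⌊(u : ℝ) ^ κ⌋₊) atTop atTop := by
  have h1 : Tendsto (fun u : ℕ => (u : ℝ) ^ κ) atTop atTop :=
    (tendsto_rpow_atTop (by linarith)).comp tendsto_natCast_atTop_atTop
  exact tendsto_nat_floor_atTop.comp h1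

lemma le_floor_pow {κ : ℝ} (hκ : 1 < κ) {u : ℕ} (hu : 1 ≤ u) : u ≤ ⌊(u : ℝ) ^ κ⌋₊ := by
  rw [Nat.le_floor_iff (by positivity)]
  have : (1 : ℝ) ≤ u := by exact_mod_cast hu
  calc (u : ℝ) = (u : ℝ) ^ (1 : ℝ) := (Real.rpow_one _).symm
    _ ≤ (u : ℝ) ^ κ := Real.rpow_le_rpow_of_exponent_le this hκ.le

/-- Mertens' theorem for the windows -/
theorem mertens_window {κ : ℝ} (hκ : 1 < κ) :
    Tendsto (fun u : ℕ => ∑ p ∈ (Ioc u ⌊(u : ℝ) ^ κ⌋₊).filter Nat.Prime, (1 : ℝ) / p) atTop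
      (𝓝 (Real.log κ)) := by
  obtain ⟨M, hM⟩ := Pool.Agent.H305R2.mertens_inv_tendsto
  set F : ℕ → ℝ := fun N => ∑ p ∈ (Icc 1 N).filter Nat.Prime, (1 : ℝ) / p - Real.log (Real.log N) with hF
  have h1 := (hM.comp (floor_pow_tendsto hκ)).sub hM
  rw [sub_self] at h1
  -- the logarithms
  have hlogu : Tendsto (fun u : ℕ => Real.log u) atTop atTop :=
    Real.tendsto_log_atTop.comp tendsto_natCast_atTop_atTop
  have h2 : Tendsto (fun u : ℕ => Real.log ((⌊(u : ℝ) ^ κ⌋₊ : ℕ) : ℝ) / Real.log u) atTop (𝓝 κ) := by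
    have hlow : Tendsto (fun u : ℕ => κ - Real.log 2 / Real.log u) atTop (𝓝 κ) := by
      have := (tendsto_const_nhds (x := Real.log 2)).div_atTop hlogu
      simpa using (tendsto_const_nhds (x := κ)).sub this
    refine tendsto_of_tendsto_of_tendsto_of_le_of_le' hlow tendsto_const_nhds ?_ ?_
    · filter_upwards [eventually_ge_atTop 2] with u hu
      have hu1 : (2 : ℝ) ≤ u := by exact_mod_cast hu
      have hlu : 0 < Real.log u := Real.log_pos (by linarith)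
      have hpow : (2 : ℝ) ≤ (u : ℝ) ^ κ := by
        calc (2 : ℝ) ≤ u := hu1
          _ = (u : ℝ) ^ (1 : ℝ) := (Real.rpow_one _).symm
          _ ≤ _ := Real.rpow_le_rpow_of_exponent_le (by linarith) hκ.le
      have hfl : (u : ℝ) ^ κ / 2 ≤ ((⌊(u : ℝ) ^ κ⌋₊ : ℕ) : ℝ) := by
        have := Nat.sub_one_lt_floor ((u : ℝ) ^ κ)
        linarith
      have hlog : κ * Real.log u - Real.log 2 ≤ Real.log ((⌊(u : ℝ) ^ κ⌋₊ : ℕ) : ℝ) := by
        have h3 := Real.log_le_log (by positivity) hfl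
        rw [Real.log_div (by positivity) (by norm_num), Real.log_rpow (by linarith)] at h3
        exact h3
      have e : κ - Real.log 2 / Real.log u = (κ * Real.log u - Real.log 2) / Real.log u := by
        field_simp
      rw [e]
      exact div_le_div_of_nonneg_right hlog hlu.le
    · filter_upwards [eventually_ge_atTop 2] with u hu
      have hu1 : (2 : ℝ) ≤ u := by exact_mod_cast hu
      have hlu : 0 < Real.log u := Real.log_pos (by linarith)
      have hvu : u ≤ ⌊(u : ℝ) ^ κ⌋₊ := le_floor_pow hκ (by omega)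
      rw [div_le_iff₀ hlu]
      have h3 : ((⌊(u : ℝ) ^ κ⌋₊ : ℕ) : ℝ) ≤ (u : ℝ) ^ κ := Nat.floor_le (by positivity)
      have h4 : (0 : ℝ) < ((⌊(u : ℝ) ^ κ⌋₊ : ℕ) : ℝ) := by
        have : 0 < ⌊(u : ℝ) ^ κ⌋₊ := by omega
        exact_mod_cast this
      have h5 := Real.log_le_log h4 h3
      rwa [Real.log_rpow (by linarith)] at h5
  have h3 := ((Real.continuousAt_log (by linarith : κ ≠ 0)).tendsto.comp h2)
  have h4 := h1.add h3
  rw [zero_add] at h4
  refine h4.congr' ?_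
  filter_upwards [eventually_ge_atTop 3] with u hu
  have hvu : u ≤ ⌊(u : ℝ) ^ κ⌋₊ := le_floor_pow hκ (by omega)
  set v := ⌊(u : ℝ) ^ κ⌋₊ with hv
  have hu1 : (1 : ℝ) < u := by exact_mod_cast (by omega : 1 < u)
  have hv1 : (1 : ℝ) < v := by exact_mod_cast (by omega : 1 < v)
  have hlu : 0 < Real.log u := Real.log_pos hu1
  have hlv : 0 < Real.log v := Real.log_pos hv1
  simp only [Function.comp_apply]
  rw [← hv, Real.log_div hlv.ne' hlu.ne']
  have e1 : (Icc 1 v).filter Nat.Prime = (Icc 1 u).filter Nat.Prime ∪ (Ioc u v).filter Nat.Prime := by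
    ext p
    simp only [mem_union, mem_filter, mem_Icc, mem_Ioc]
    constructor
    · rintro ⟨⟨ha, hb⟩, hc⟩
      by_cases h : p ≤ u
      · exact Or.inl ⟨⟨ha, h⟩, hc⟩
      · exact Or.inr ⟨⟨by omega, hb⟩, hc⟩
    · rintro (⟨⟨ha, hb⟩, hc⟩ | ⟨⟨ha, hb⟩, hc⟩)
      · exact ⟨⟨ha, by omega⟩, hc⟩
      · exact ⟨⟨hc.one_le, hb⟩, hc⟩
  have hd : Disjoint ((Icc 1 u).filter Nat.Prime) ((Ioc u v).filter Nat.Prime) := by
    rw [disjoint_left]
    intro p hp hq
    rw [mem_filter, mem_Icc] at hp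
    rw [mem_filter, mem_Ioc] at hq
    omega
  simp only [hF]
  rw [e1, sum_union hd]
  ring

/-- **the Poisson law for the windows `(u, u ^ κ]`** -/
theorem window (j : ℕ) {κ ε : ℝ} (hκ : 1 < κ) (hε : 0 < ε) : ∃ u0 D : ℕ, ∀ (b : ℤ) (u X : ℕ),
    u0 ≤ u → u ^ D ≤ X →
    |(((Icc 1 X).filter (fun a : ℕ =>
        ((Ioc u ⌊(u : ℝ) ^ κ⌋₊).filter (fun p => IsWilson b (a : ℤ) p)).card = j)).card : ℝ) / X -
      (Real.log κ) ^ j / (κ * (j.factorial : ℝ))| ≤ ε := by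
  obtain ⟨u1, D1, h1⟩ := poisson j (Real.log κ + 1) (half_pos hε)
  have hm := mertens_window hκ
  have hc : Continuous (fun x : ℝ => Real.exp (-x) * x ^ j / (j.factorial : ℝ)) := by fun_prop
  have h2 := (hc.tendsto (Real.log κ)).comp hm
  have e0 : Real.exp (-Real.log κ) * (Real.log κ) ^ j / (j.factorial : ℝ) =
      (Real.log κ) ^ j / (κ * (j.factorial : ℝ)) := by
    rw [Real.exp_neg, Real.exp_log (by linarith)]
    field_simp
  have h3 := h2.eventually (Metric.ball_mem_nhds _ (half_pos hε))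
  have h4 := hm.eventually (gt_mem_nhds (by linarith : Real.log κ < Real.log κ + 1))
  obtain ⟨u2, h5⟩ := eventually_atTop.1 (h3.and h4)
  refine ⟨max (max u1 u2) 1, ⌈κ * D1⌉₊, fun b u X hu hX => ?_⟩
  have hu1 : u1 ≤ u := ((le_max_left _ _).trans (le_max_left _ _)).trans hu
  have hu2 : u2 ≤ u := ((le_max_right _ _).trans (le_max_left _ _)).trans hu
  have hu3 : 1 ≤ u := (le_max_right _ _).trans hu
  obtain ⟨h6, h7⟩ := h5 u hu2
  have hvu : u ≤ ⌊(u : ℝ) ^ κ⌋₊ := le_floor_pow hκ hu3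
  set v := ⌊(u : ℝ) ^ κ⌋₊ with hv
  set S := (Ioc u v).filter Nat.Prime with hS
  have hvX : v ^ D1 ≤ X := by
    refine le_trans ?_ hX
    have hur : (1 : ℝ) ≤ u := by exact_mod_cast hu3
    have h8 : ((v ^ D1 : ℕ) : ℝ) ≤ ((u ^ ⌈κ * D1⌉₊ : ℕ) : ℝ) := by
      push_cast
      calc (v : ℝ) ^ D1 ≤ ((u : ℝ) ^ κ) ^ D1 :=
            pow_le_pow_left₀ (Nat.cast_nonneg _) (Nat.floor_le (by positivity)) _
        _ = (u : ℝ) ^ (κ * D1) := by rw [Real.rpow_mul (by linarith), Real.rpow_natCast]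
        _ ≤ (u : ℝ) ^ ((⌈κ * D1⌉₊ : ℕ) : ℝ) :=
            Real.rpow_le_rpow_of_exponent_le hur (Nat.le_ceil _)
        _ = _ := Real.rpow_natCast _ _
    exact_mod_cast h8
  have h9 := h1 b S v X (hu1.trans hvu) (fun p hp => by
    rw [hS, mem_filter, mem_Ioc] at hp
    exact ⟨hp.2, by omega, hp.1.2⟩) h7.le hvX
  have e1 : ∀ a : ℕ, ((Ioc u v).filter (fun p => IsWilson b (a : ℤ) p)).card = NS b S a := by
    intro a
    unfold NS
    congr 1
    ext p
    rw [hS]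
    simp only [mem_filter]
    constructor
    · rintro ⟨h, h'⟩; exact ⟨⟨h, h'.1⟩, h'⟩
    · rintro ⟨⟨h, _⟩, h'⟩; exact ⟨h, h'⟩
  simp only [e1]
  rw [Real.dist_eq] at h6
  simp only [Function.comp_apply] at h6
  rw [e0] at h6
  rw [abs_le] at h9 ⊢
  rw [abs_lt] at h6
  constructor <;> linarith [h9.1, h9.2, h6.1, h6.2]

end Pool.Agent.Helper92K9.WI
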